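import Pool.Agent.H301R2.SSE.Nine

set_option autoImplicit false

namespace Pool.Agent.H301R2.Nine

open Pool.Agent.H301R2.SSE Real

/-- `log π` -/
noncomputable def L : ℝ := Real.log π

theorem L_pos : 0 < L := Real.log_pos (by linarith [Real.pi_gt_three])

theorem exp_L : Real.exp L = π := Real.exp_log Real.pi_pos

theorem e_lt_pi : Real.exp 1 < π := by
  have h1 := Real.exp_one_lt_d9
  have h2 := Real.pi_gt_three
  linarith

theorem trC_pi : ¬ IsAlgebraic ℚ ((π : ℝ) : ℂ) := fun h =>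
  Pool.Agent.H340R2.LW.transcendental_pi (ofC h)

theorem trC_e : ¬ IsAlgebraic ℚ ((Real.exp 1 : ℝ) : ℂ) := fun h =>
  Pool.Agent.H340R2.LW.transcendental_exp_one (ofC h)

theorem lin_of_tr {z : ℂ} (hz : ¬ IsAlgebraic ℚ z) {a b : ℂ} (ha : IsAlgebraic ℚ a)
    (hb : IsAlgebraic ℚ b) (h : a + b * z = 0) : a = 0 ∧ b = 0 := by
  by_cases hb0 : b = 0
  · subst hb0
    rw [zero_mul, add_zero] at h
    exact ⟨h, rfl⟩
  · exfalso
    apply hz
    have : z = -a * b⁻¹ := by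
      field_simp
      linear_combination h
    rw [this]
    exact ha.neg.mul hb.inv

/-- `log π` is a linear form in `1` and logarithms, linearly independent from `1, π` -/
def Good : Prop := (L : ℂ) ∈ Lt ∧ ∀ a b c : ℂ, IsAlgebraic ℚ a → IsAlgebraic ℚ b →
  IsAlgebraic ℚ c → a + b * (π : ℂ) + c * (L : ℂ) = 0 → a = 0 ∧ b = 0 ∧ c = 0

theorem good_of {t u v : ℝ} (ht : t ≠ 0) (hexp : IsAlgebraic ℚ (Real.exp t))
    (hu : IsAlgebraic ℚ u) (hv : IsAlgebraic ℚ v) (hv0 : v ≠ 0) (h : L = u + v * t) : Good := by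
  have hLc : (L : ℂ) = (u : ℂ) + (v : ℂ) * (t : ℂ) := by rw [h]; push_cast; ring
  refine ⟨?_, ?_⟩
  · rw [hLc]
    exact Lt.add_mem (Lt_alg (toC hu)) (Lt_mul (toC hv) (LB_Lt (real_mem hexp)))
  · intro a b c ha hb hc habc
    rw [hLc] at habc
    obtain ⟨h1, h2, h3⟩ := pi_log ht hexp (a := a + c * u) (b := b) (c := c * v)
      (ha.add (hc.mul (toC hu))) hb (hc.mul (toC hv)) (by linear_combination habc)
    have h4 : c = 0 := (mul_eq_zero.mp h3).resolve_right (by exact_mod_cast hv0)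
    rw [h4, zero_mul, add_zero] at h1
    exact ⟨h1, h2, h4⟩

theorem good_A3 (h : IsAlgebraic ℚ (π * Real.exp 1)) : Good := by
  refine good_of (t := L + 1) (u := -1) (v := 1) ?_ ?_ isAlgebraic_one.neg isAlgebraic_one
    one_ne_zero (by ring)
  · linarith [L_pos]
  · rw [Real.exp_add, exp_L]; exact h

theorem good_A4 (h : IsAlgebraic ℚ (π / Real.exp 1)) : Good := by
  refine good_of (t := L - 1) (u := 1) (v := 1) ?_ ?_ isAlgebraic_one isAlgebraic_one
    one_ne_zero (by ring)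
  · intro h0
    have h1 : L = 1 := by linarith
    have h2 := exp_L
    rw [h1] at h2
    linarith [e_lt_pi]
  · rw [Real.exp_sub, exp_L]; exact h

theorem alg_sqrt2 : IsAlgebraic ℚ (√2 : ℝ) := by
  apply IsAlgebraic.of_pow (n := 2) (by norm_num)
  rw [Real.sq_sqrt (by norm_num)]
  exact isAlgebraic_natCast 2

theorem good_E (h : IsAlgebraic ℚ (Real.exp (√2 * L))) : Good := by
  have h2 : (√2 : ℝ) ≠ 0 := by positivity
  refine good_of (t := √2 * L) (u := 0) (v := (√2)⁻¹) ?_ h isAlgebraic_zero alg_sqrt2.inv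
    (inv_ne_zero h2) ?_
  · exact mul_ne_zero h2 L_pos.ne'
  · field_simp
    ring

theorem good_s {s : ℝ} (hs : s ≠ 0) (hs' : IsAlgebraic ℚ s) (h : IsAlgebraic ℚ (Real.exp (s * L))) :
    Good := by
  refine good_of (t := s * L) (u := 0) (v := s⁻¹) ?_ h isAlgebraic_zero hs'.inv
    (inv_ne_zero hs) ?_
  · exact mul_ne_zero hs L_pos.ne'
  · field_simp
    ring


/-! ### the pairs -/

variable {A B : Prop}

theorem sq_alg {x y : ℝ} (h : IsAlgebraic ℚ (x + y)) (h' : IsAlgebraic ℚ (x * y)) :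
    IsAlgebraic ℚ x := by
  have h4 : IsAlgebraic ℚ (x - y) := by
    apply IsAlgebraic.of_pow (n := 2) (by norm_num)
    have e : (x - y) ^ 2 = (x + y) ^ 2 - ((4 : ℕ) : ℝ) * (x * y) := by push_cast; ring
    rw [e]
    exact (h.pow 2).sub ((isAlgebraic_natCast 4).mul h')
  have e : x = ((2 : ℕ) : ℝ)⁻¹ * ((x + y) + (x - y)) := by push_cast; ring
  rw [e]
  exact (isAlgebraic_natCast 2).inv.mul (h.add h4)

theorem p01 (h0 : IsAlgebraic ℚ (π + Real.exp 1)) (h1 : IsAlgebraic ℚ (π - Real.exp 1)) :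
    False := by
  apply Pool.Agent.H340R2.LW.transcendental_pi
  have e : π = ((2 : ℕ) : ℝ)⁻¹ * ((π + Real.exp 1) + (π - Real.exp 1)) := by push_cast; ring
  rw [e]
  exact (isAlgebraic_natCast 2).inv.mul (h0.add h1)

theorem p02 (h0 : IsAlgebraic ℚ (π + Real.exp 1)) (h1 : IsAlgebraic ℚ (π * Real.exp 1)) :
    False :=
  Pool.Agent.H340R2.LW.transcendental_pi (sq_alg h0 h1)

theorem p12 (h0 : IsAlgebraic ℚ (π - Real.exp 1)) (h1 : IsAlgebraic ℚ (π * Real.exp 1)) :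
    False := by
  apply Pool.Agent.H340R2.LW.transcendental_pi
  apply sq_alg (y := - Real.exp 1)
  · rwa [← sub_eq_add_neg]
  · rw [mul_neg]; exact h1.neg

theorem p03 (h0 : IsAlgebraic ℚ (π + Real.exp 1)) (h1 : IsAlgebraic ℚ (π / Real.exp 1)) :
    False := by
  apply Pool.Agent.H340R2.LW.transcendental_exp_one
  have he := Real.exp_pos 1
  have hp := Real.pi_pos
  have e : Real.exp 1 = (π + Real.exp 1) * (π / Real.exp 1 + 1)⁻¹ := by field_simp
  rw [e]
  exact h0.mul (h1.add isAlgebraic_one).inv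

theorem p13 (h0 : IsAlgebraic ℚ (π - Real.exp 1)) (h1 : IsAlgebraic ℚ (π / Real.exp 1)) :
    False := by
  apply Pool.Agent.H340R2.LW.transcendental_exp_one
  have he := Real.exp_pos 1
  have hne : π - Real.exp 1 ≠ 0 := by linarith [e_lt_pi]
  have e : Real.exp 1 = (π - Real.exp 1) * (π / Real.exp 1 - 1)⁻¹ := by field_simp
  rw [e]
  exact h0.mul (h1.sub isAlgebraic_one).inv

theorem p23 (h0 : IsAlgebraic ℚ (π * Real.exp 1)) (h1 : IsAlgebraic ℚ (π / Real.exp 1)) :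
    False := by
  apply Pool.Agent.H340R2.LW.transcendental_pi
  apply IsAlgebraic.of_pow (n := 2) (by norm_num)
  have he := Real.exp_pos 1
  have e : π ^ 2 = (π * Real.exp 1) * (π / Real.exp 1) := by field_simp
  rw [e]
  exact h0.mul h1

/-- `1` is not a linear form in logarithms, for `πe, π^√2` -/
theorem p27 (h0 : IsAlgebraic ℚ (π * Real.exp 1)) (h1 : IsAlgebraic ℚ (Real.exp (√2 * L))) :
    False := by
  have h2 : ((L + 1 : ℝ) : ℂ) ∈ LB := real_mem (by rw [Real.exp_add, exp_L]; exact h0)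
  have h3 := real_mem h1
  have h4 := Submodule.sub_mem _ (LB_mul (toC alg_sqrt2) h2) h3
  have h5 : ((√2 : ℝ) : ℂ) * ((L + 1 : ℝ) : ℂ) - ((√2 * L : ℝ) : ℂ) = ((√2 : ℝ) : ℂ) := by
    push_cast; ring
  rw [h5] at h4
  have := LB_real_alg h4 alg_sqrt2
  have h2 : (√2 : ℝ) ≠ 0 := by positivity
  exact h2 this

theorem p37 (h0 : IsAlgebraic ℚ (π / Real.exp 1)) (h1 : IsAlgebraic ℚ (Real.exp (√2 * L))) :
    False := by
  have h2 : ((L - 1 : ℝ) : ℂ) ∈ LB := real_mem (by rw [Real.exp_sub, exp_L]; exact h0)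
  have h3 := real_mem h1
  have h4 := Submodule.sub_mem _ h3 (LB_mul (toC alg_sqrt2) h2)
  have h5 : ((√2 * L : ℝ) : ℂ) - ((√2 : ℝ) : ℂ) * ((L - 1 : ℝ) : ℂ) = ((√2 : ℝ) : ℂ) := by
    push_cast; ring
  rw [h5] at h4
  have := LB_real_alg h4 alg_sqrt2
  have h2 : (√2 : ℝ) ≠ 0 := by positivity
  exact h2 this

theorem p50 (hC : IsAlgebraic ℚ (Real.exp (Real.exp 1))) (h0 : IsAlgebraic ℚ (π + Real.exp 1)) :
    False := by
  have h4 := Submodule.add_mem _ pi_mem (real_mem hC)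
  have h5 : (π : ℂ) + ((Real.exp 1 : ℝ) : ℂ) = ((π + Real.exp 1 : ℝ) : ℂ) := by push_cast; ring
  rw [h5] at h4
  have := LB_real_alg h4 h0
  have he := Real.exp_pos 1
  have hp := Real.pi_pos
  linarith

theorem p51 (hC : IsAlgebraic ℚ (Real.exp (Real.exp 1))) (h0 : IsAlgebraic ℚ (π - Real.exp 1)) :
    False := by
  have h4 := Submodule.sub_mem _ pi_mem (real_mem hC)
  have h5 : (π : ℂ) - ((Real.exp 1 : ℝ) : ℂ) = ((π - Real.exp 1 : ℝ) : ℂ) := by push_cast; ring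
  rw [h5] at h4
  have := LB_real_alg h4 h0
  linarith [e_lt_pi]

theorem p53 (hC : IsAlgebraic ℚ (Real.exp (Real.exp 1))) (h0 : IsAlgebraic ℚ (π / Real.exp 1)) :
    False := by
  have h := pi_log (Real.exp_ne_zero 1) hC (a := 0) (b := 1) (c := -((π / Real.exp 1 : ℝ) : ℂ))
    isAlgebraic_zero isAlgebraic_one (toC h0).neg (by
      have he : (Complex.exp 1) ≠ 0 := Complex.exp_ne_zero 1
      push_cast
      field_simp
      ring)
  exact one_ne_zero h.2.1

end Pool.Agent.H301R2.Nine
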