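import Pool.Agent.H301R2.SSE.Setup

set_option autoImplicit false

namespace Pool.Agent.H301R2.SSE

open Module Finset Pool.Agent.H301R2.ZG

variable {D : ℕ} [NeZero D]

/-- index of the pair `(i,h)` -/
def pr (i : Fin 2) (h : Fin D) : Fin (2 * D) := finProdFinEquiv (i, h)

/-- first component -/
def f1 (q : Fin (2 * D)) : Fin 2 := (finProdFinEquiv.symm q).1
/-- second component -/
def f2 (q : Fin (2 * D)) : Fin D := (finProdFinEquiv.symm q).2

omit [NeZero D] in
@[simp] theorem f1_pr (i : Fin 2) (h : Fin D) : f1 (pr i h) = i := by simp [f1, pr]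
omit [NeZero D] in
@[simp] theorem f2_pr (i : Fin 2) (h : Fin D) : f2 (pr i h) = h := by simp [f2, pr]
omit [NeZero D] in
theorem pr_f (q : Fin (2 * D)) : pr (f1 q) (f2 q) = q :=
  finProdFinEquiv.apply_symm_apply q

omit [NeZero D] in
theorem sum_pr {M : Type*} [AddCommMonoid M] (f : Fin (2 * D) → M) :
    ∑ q, f q = ∑ i, ∑ h, f (pr i h) := by
  rw [← Fintype.sum_prod_type' (f := fun i h => f (pr i h))]
  exact (Equiv.sum_comp finProdFinEquiv f).symm

/-- the coefficients of the derivations -/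
noncomputable def gam (om : Fin D → ℂ) (d q : Fin (2 * D)) : ℂ :=
  if f1 d = f1 q then
    (if f2 q = 0 then (if f2 d = 0 then -1 / om 0 else -om (f2 d) / om 0)
      else (if f2 d = f2 q then 1 else 0)) else 0

theorem gam_alg (om : Fin D → ℂ) (h : ∀ h, IsAlgebraic ℚ (om h)) (d q : Fin (2 * D)) :
    IsAlgebraic ℚ (gam om d q) := by
  unfold gam
  split_ifs
  · exact (isAlgebraic_one.neg).mul (h 0).inv
  · exact ((h _).neg).mul (h 0).inv
  · exact isAlgebraic_one
  · exact isAlgebraic_zero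
  · exact isAlgebraic_zero

theorem sum_gam (om : Fin D → ℂ) (hom : om 0 ≠ 0) (a : Fin 2 → ℂ) (u : Fin 2 → Fin D → ℂ)
    (z : Fin 2 → ℂ) (hz : ∀ i, z i = a i + ∑ h, om h * u i h) (q : Fin (2 * D)) :
    u (f1 q) (f2 q) = (if f2 q = 0 then z (f1 q) / om 0 else 0) +
      ∑ d, gam om d q * (if f2 d = 0 then a (f1 d) else u (f1 d) (f2 d)) := by
  rw [sum_pr]
  have h1 : ∀ i, ∑ h, gam om (pr i h) q * (if f2 (pr i h) = 0 then a (f1 (pr i h))
      else u (f1 (pr i h)) (f2 (pr i h))) = if i = f1 q then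
        ∑ h, (if f2 q = 0 then (if h = 0 then -1 / om 0 else -om h / om 0)
          else (if h = f2 q then 1 else 0)) * (if h = 0 then a (f1 q) else u (f1 q) h) else 0 := by
    intro i
    by_cases hi : i = f1 q
    · rw [if_pos hi]
      apply Finset.sum_congr rfl
      intro h _
      unfold gam
      rw [f1_pr, f2_pr, if_pos hi, hi]
    · rw [if_neg hi]
      apply Finset.sum_eq_zero
      intro h _
      unfold gam
      rw [f1_pr, if_neg hi, zero_mul]
  simp only [h1]
  rw [Finset.sum_ite_eq' Finset.univ (f1 q), if_pos (Finset.mem_univ _)]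
  by_cases hq : f2 q = 0
  · simp only [hq, if_true]
    have h2 : ∀ h, (if h = 0 then -1 / om 0 else -om h / om 0) *
        (if h = 0 then a (f1 q) else u (f1 q) h) =
        (if h = 0 then (u (f1 q) 0 - a (f1 q) / om 0) else 0) - (om h * u (f1 q) h) / om 0 := by
      intro h
      split_ifs with hh
      · rw [hh]; field_simp; ring
      · ring
    simp only [h2]
    rw [Finset.sum_sub_distrib, Finset.sum_ite_eq' Finset.univ (0 : Fin D),
      if_pos (Finset.mem_univ _), ← Finset.sum_div, hz (f1 q)]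
    ring
  · simp only [hq, if_false]
    rw [zero_add, Finset.sum_eq_single (f2 q)]
    · rw [if_pos rfl, if_neg hq, one_mul]
    · intro h _ hh
      rw [if_neg hh, zero_mul]
    · intro h; exact absurd (Finset.mem_univ _) h

/-- numerical parameters -/
theorem params (D : ℕ) (hD : 1 ≤ D) : ∃ κ μ σ : ℕ, μ + σ = κ ∧
    (κ + 1) * (1 + 2 * D) + 1 ≤ 2 * κ + (2 * D) * μ ∧ 0 < σ ∧ κ < (2 * D + 1) * σ ∧
    2 * κ < (4 * D + 1) * σ := by
  obtain ⟨k, hk⟩ : ∃ k, k = 8 * D + 10 := ⟨_, rfl⟩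
  refine ⟨2 * D * k, (2 * D - 1) * k + 2, k - 2, ?_, ?_, ?_, ?_, ?_⟩
  · obtain ⟨D', rfl⟩ : ∃ D', D = D' + 1 := ⟨D - 1, by omega⟩
    have : 2 * (D' + 1) - 1 = 2 * D' + 1 := by omega
    rw [this]
    have : k = (k - 2) + 2 := by omega
    have h2 : 2 * (D' + 1) * k = (2 * D' + 1) * k + k := by ring
    omega
  · obtain ⟨D', rfl⟩ : ∃ D', D = D' + 1 := ⟨D - 1, by omega⟩
    have : 2 * (D' + 1) - 1 = 2 * D' + 1 := by omega
    rw [this]
    nlinarith
  · omega
  · obtain ⟨j, hj⟩ : ∃ j, k = j + 2 := ⟨k - 2, by omega⟩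
    rw [hj]
    have : j + 2 - 2 = j := by omega
    rw [this]
    nlinarith
  · obtain ⟨j, hj⟩ : ∃ j, k = j + 2 := ⟨k - 2, by omega⟩
    rw [hj]
    have : j + 2 - 2 = j := by omega
    rw [this]
    nlinarith

end Pool.Agent.H301R2.SSE
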