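import Pool.Agent.H301R2.SSE.Thm

set_option autoImplicit false

namespace Pool.Agent.H301R2.SSE

open Module Finset Pool.Agent.H301R2.ZG

section full

variable {n : ℕ} (Rm : AddSubgroup (Fin n → ℤ))

theorem cSpan_zero {f : (Fin n → ℂ)} (h : ∀ m ∈ Rm, ∑ q, (m q : ℂ) * f q = 0) :
    ∀ r ∈ cSpan Rm, ∑ q, r q * f q = 0 := by
  intro r hr
  refine Submodule.span_induction (p := fun r _ => ∑ q, r q * f q = 0) ?_ ?_ ?_ ?_ hr
  · rintro _ ⟨m, hm, rfl⟩
    exact h m hm
  · simp
  · intro r r' _ _ h h'
    simp only [Pi.add_apply, add_mul, Finset.sum_add_distrib, h, h', add_zero]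
  · intro a r _ h
    simp only [Pi.smul_apply, smul_eq_mul, mul_assoc, ← Finset.mul_sum, h, mul_zero]

end full

theorem emb2 {V : Type*} [AddCommGroup V] [Module ℂ V] [FiniteDimensional ℂ V]
    (N : Submodule ℂ V) (κ0 : V →ₗ[ℂ] (Fin 2 → ℂ)) (hinj : ∀ v ∈ N, κ0 v = 0 → v = 0) :
    finrank ℂ N ≤ 2 ∧ (finrank ℂ N = 2 → ∀ w, ∃ v ∈ N, κ0 v = w) := by
  have h1 : Function.Injective (κ0.comp N.subtype) := by
    rw [← LinearMap.ker_eq_bot, LinearMap.ker_eq_bot']
    intro v hv
    exact Subtype.ext (hinj v v.2 hv)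
  constructor
  · have := LinearMap.finrank_le_finrank_of_injective h1
    simpa using this
  · intro h2 w
    have h3 : Function.Surjective (κ0.comp N.subtype) := by
      refine (LinearMap.injective_iff_surjective_of_finrank_eq_finrank ?_).mp h1
      rw [Module.finrank_fintype_fun_eq_card, Fintype.card_fin]
      exact h2
    obtain ⟨v, hv⟩ := h3 w
    exact ⟨v, v.2, hv⟩

variable (K : IntermediateField ℚ ℂ) [FiniteDimensional ℚ K]

theorem sharp_strong_core (x : Fin 2 → ℂ) (y : Fin 3 → ℂ) (β : Fin 2 → Fin 3 → ℂ)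
    (u : Fin 2 → Fin 3 → Fin (dg K) → ℂ)
    (hx : ∀ a b : K, (a : ℂ) * x 0 + (b : ℂ) * x 1 = 0 → a = 0 ∧ b = 0)
    (hy : ∀ c : Fin 3 → K, ∑ j, (c j : ℂ) * y j = 0 → ∀ j, c j = 0)
    (hβ : ∀ i j, IsAlgebraic ℚ (β i j)) (hu : ∀ i j h, u i j h ∈ Lg)
    (hxy : ∀ i j, x i * y j = β i j + ∑ h, om K h * u i j h) :
    ∀ i j, x i * y j = β i j := by
  classical
  by_contra hne
  have hD : 1 ≤ dg K := Nat.one_le_iff_ne_zero.mpr (NeZero.ne (dg K))
  have hom0 : om K 0 ≠ 0 := om_ne K 0
  obtain ⟨κ, μ, σ, hκ, hcount, hσ, hp1, hp2⟩ := params (dg K) hD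
  have hx0 : x 0 ≠ 0 := by
    intro h
    have := (hx 1 0 (by simp [h])).1
    exact one_ne_zero this
  -- apply the obstruction theorem
  set A : Finset (Fin (2 * dg K)) := Finset.univ.filter (fun d => f2 d = 0) with hA
  have hAcard : A.card = 2 := by
    have : A = (Finset.univ : Finset (Fin 2)).image (fun i => pr i (0 : Fin (dg K))) := by
      ext d
      simp only [hA, Finset.mem_filter, Finset.mem_univ, true_and, Finset.mem_image]
      constructor
      · intro h; exact ⟨f1 d, by rw [← h, pr_f]⟩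
      · rintro ⟨i, rfl⟩; exact f2_pr i 0
    rw [this, Finset.card_image_of_injective]
    · simp
    · intro i i' h
      have := congrArg f1 h
      simpa using this
  set ω : Fin (2 * dg K) → Fin (3 * dg K) → ℂ := fun d p =>
    if f2 d = 0 then av K β (f1 d) p else um K u (f1 d) (f2 d) p with hω
  set uu : Fin (2 * dg K) → Fin (3 * dg K) → ℂ := fun q p => um K u (f1 q) (f2 q) p with huu
  obtain ⟨Af, Rm, W0, G0, hAfA, hne0, hW0, hG0, hineq⟩ :=
    Pool.Agent.H335R2.Obs.obstruction_of zeg (w := 2 * dg K) (b := 2 * dg K) (l := 3 * dg K) (r := 1) A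
      (gam (om K)) ω uu (fun _ q => if f2 q = 0 then x (f1 q) / om K 0 else 0)
      (fun _ p => yv K y p)
      (gam_alg (om K) (om_alg K))
      (by
        intro d hd p
        have hd' : f2 d = 0 := (Finset.mem_filter.mp hd).2
        simp only [hω, if_pos hd']
        exact (om_alg K _).mul (hβ _ _))
      (fun q p => um_mem K u hu _ _ p)
      (by
        intro q p
        rw [Fin.sum_univ_one]
        have h1 := sum_gam (om K) hom0 (fun i => av K β i p) (fun i h => um K u i h p)
          (fun i => x i * yv K y p) (fun i => factA K x y β u hxy i p) q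
        simp only [huu, hω]
        rw [h1]
        congr 1
        split_ifs
        · ring
        · ring)
      κ μ σ hκ (by rw [hAcard]; exact hcount)
  have hAf : ∀ a ∈ Af, ∀ d, f2 d ≠ 0 → a d = 0 := by
    intro a ha d hd
    exact hAfA a ha d (by simp [hA, hd])
  set wc := 2 * dg K - finrank ℂ W0 with hwc
  set bb := 3 * dg K - finrank ℤ G0 with hbb
  set d0 := finrank ℂ Af with hd0
  set d1 := finrank ℤ Rm with hd1
  have hle : wc * κ + bb * σ ≤ d0 * κ + d1 * μ := by
    rcases hineq with h | h
    · exact h.le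
    · exact h.1.le
  -- rank-nullity
  have hrn := LinearMap.finrank_range_add_finrank_ker (Psi (om K) Af Rm)
  have hprod : finrank ℂ (Af × cSpan Rm) = d0 + finrank ℂ (cSpan Rm) := Module.finrank_prod
  rw [hprod] at hrn
  have hW := Psi_W0 (om K) Af Rm W0 hW0
  have hdc : d1 ≤ finrank ℂ (cSpan Rm) := finrank_int_le_c Rm
  set c' := finrank ℂ (LinearMap.ker (Psi (om K) Af Rm)) with hc'
  -- the kernel embeds in `ℂ²`
  let κ0 : (Af × cSpan Rm) →ₗ[ℂ] (Fin 2 → ℂ) :=
    { toFun := fun v i => (v.2 : Fin (2 * dg K) → ℂ) (pr i 0) / om K 0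
      map_add' := by intro v v'; funext i; simp [add_div]
      map_smul' := by intro c v; funext i; simp [mul_div_assoc] }
  have hkinj : ∀ v ∈ LinearMap.ker (Psi (om K) Af Rm), κ0 v = 0 → v = 0 := by
    intro v hv hv0
    obtain ⟨h1, h2⟩ := Psi_ker (om K) Af Rm hom0 hAf (LinearMap.mem_ker.mp hv)
    have h3 : ∀ i, (v.2 : Fin (2 * dg K) → ℂ) (pr i 0) / om K 0 = 0 := fun i => congrFun hv0 i
    apply Prod.ext
    · apply Subtype.ext
      funext d
      rw [← pr_f d]
      by_cases hd : f2 d = 0
      · rw [hd, h1, h3]; rfl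
      · rw [hAf _ v.1.2 _ (by rw [f2_pr]; exact hd)]; rfl
    · apply Subtype.ext
      funext d
      rw [← pr_f d, h2, h3, zero_mul]; rfl
  obtain ⟨hc2, hsurj⟩ := emb2 (LinearMap.ker (Psi (om K) Af Rm)) κ0 hkinj
  rw [← hc'] at hc2 hsurj
  have hkey : d0 + d1 ≤ wc + c' := by omega
  have hfin : (d1 + bb) * σ ≤ c' * κ := by
    have h1 : (d0 + d1) * κ ≤ (wc + c') * κ := Nat.mul_le_mul_right _ hkey
    have h2 : d1 * κ = d1 * μ + d1 * σ := by rw [← hκ]; ring
    nlinarith
  -- names for the values at `s`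
  let Sv : (Fin (3 * dg K) → ℤ) → Fin 2 → ℂ := fun s i => ∑ p, av K β i p * (s p : ℂ)
  let Uv : (Fin (3 * dg K) → ℤ) → Fin (2 * dg K) → ℂ := fun s q => ∑ p, uu q p * (s p : ℂ)
  let Yv : (Fin (3 * dg K) → ℤ) → ℂ := fun s => ∑ p, yv K y p * (s p : ℂ)
  have hxY : ∀ s i, x i * Yv s = Sv s i + ∑ h, om K h * Uv s (pr i h) := by
    intro s i
    simp only [Yv, Sv, Uv, Finset.mul_sum]
    rw [Finset.sum_comm, ← Finset.sum_add_distrib]
    apply Finset.sum_congr rfl
    intro p _
    have h1 := factA K x y β u hxy i p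
    have h2 : ∑ h, om K h * (uu (pr i h) p * (s p : ℂ)) =
        (∑ h, om K h * um K u i h p) * (s p : ℂ) := by
      rw [Finset.sum_mul]
      apply Finset.sum_congr rfl
      intro h _
      simp only [huu, f1_pr, f2_pr]
      ring
    rw [h2, ← mul_assoc, h1]
    ring
  have hY0 : ∀ s, Yv s = 0 → s = 0 := fun s h => yv_zero K y hy s h
  -- consequences of membership in `G0`
  have hG1 : ∀ s ∈ G0, ∀ v ∈ LinearMap.ker (Psi (om K) Af Rm),
      ∑ i, (v.2 : Fin (2 * dg K) → ℂ) (pr i 0) / om K 0 * Sv s i = 0 := by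
    intro s hs v hv
    obtain ⟨h1, h2⟩ := Psi_ker (om K) Af Rm hom0 hAf (LinearMap.mem_ker.mp hv)
    have h3 := ((hG0 s).mp hs).1 _ v.1.2
    rw [sum_pr] at h3
    rw [← h3]
    apply Finset.sum_congr rfl
    intro i _
    rw [Finset.sum_eq_single 0]
    · rw [h1]
      simp only [Sv, hω, f1_pr, f2_pr, if_true]
    · intro h _ hh
      rw [hAf _ v.1.2 _ (by rw [f2_pr]; exact hh), zero_mul]
    · intro h; exact absurd (Finset.mem_univ _) h
  have hG2 : ∀ s ∈ G0, ∀ m ∈ Rm, ∃ n : ℤ, ∑ q, (m q : ℂ) * Uv s q =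
      n * (2 * Real.pi * Complex.I) := by
    intro s hs m hm
    obtain ⟨n, hn⟩ := ((hG0 s).mp hs).2 m hm
    refine ⟨n, ?_⟩
    rw [← hn]
    apply Finset.sum_congr rfl
    intro q _
    simp only [Uv, Finset.mul_sum]
    apply Finset.sum_congr rfl
    intro p _
    ring
  have hpi : (2 * Real.pi * Complex.I : ℂ) ≠ 0 := by
    have : (Real.pi : ℂ) ≠ 0 := by exact_mod_cast Real.pi_ne_zero
    simp [this]
  -- full rank of `Rm` from a kernel element
  have hT : ∀ t : Fin (2 * dg K) → ℚ, (∀ m ∈ Rm, ∑ j, t j * (m j : ℚ) = 0) →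
      ∀ v ∈ LinearMap.ker (Psi (om K) Af Rm),
      ∑ i, (v.2 : Fin (2 * dg K) → ℂ) (pr i 0) / om K 0 *
        ((tau K (fun h => t (pr i h)) : K) : ℂ) = 0 := by
    intro t ht v hv
    obtain ⟨h1, h2⟩ := Psi_ker (om K) Af Rm hom0 hAf (LinearMap.mem_ker.mp hv)
    have h3 := cSpan_zero Rm (f := fun q => (t q : ℂ)) (by
      intro m hm
      have := congrArg (fun q : ℚ => (q : ℂ)) (ht m hm)
      push_cast at this
      rw [← this]
      apply Finset.sum_congr rfl; intro q _; ring) _ v.2.2
    rw [sum_pr] at h3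
    rw [← h3]
    apply Finset.sum_congr rfl
    intro i _
    rw [tau_coe, Finset.mul_sum]
    apply Finset.sum_congr rfl
    intro h _
    rw [h2 i h]
    ring
  -- full rank of `Rm` as soon as `tau` vanishes
  have htau0 : ∀ t : Fin (2 * dg K) → ℚ, (∀ i, tau K (fun h => t (pr i h)) = 0) → t = 0 := by
    intro t ht
    funext q
    have := congrFun (tau_eq_zero K (ht (f1 q))) (f2 q)
    simp only [pr_f] at this
    exact this
  have hUrat : ratSpan Rm = ⊤ → ∀ s ∈ G0, ∃ t : Fin (2 * dg K) → ℚ,
      ∀ q, Uv s q = (t q : ℂ) * (2 * Real.pi * Complex.I) := by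
    intro hR s hs
    have h1 : ∀ q, ∃ t : ℚ, Uv s q = (t : ℂ) * (2 * Real.pi * Complex.I) := by
      intro q
      obtain ⟨N, hN, hm⟩ := single_mem hR q
      obtain ⟨n, hn⟩ := hG2 s hs _ hm
      rw [Finset.sum_eq_single q] at hn
      · rw [Pi.single_eq_same] at hn
        have hN' : (N : ℂ) ≠ 0 := by exact_mod_cast hN.ne'
        refine ⟨n / N, ?_⟩
        push_cast at hn ⊢
        rw [div_mul_eq_mul_div, eq_div_iff hN', mul_comm]
        exact hn
      · intro q' _ hq'
        rw [Pi.single_eq_of_ne hq']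
        simp
      · intro h; exact absurd (Finset.mem_univ _) h
    choose t ht using h1
    exact ⟨t, ht⟩
  -- if `Rm` has full rank, `x i * Y s = S s i + 2 pi i * (element of K)`
  have hxYrat : ratSpan Rm = ⊤ → ∀ s ∈ G0, ∃ t : Fin (2 * dg K) → ℚ,
      ∀ i, x i * Yv s = Sv s i +
        ((tau K (fun h => t (pr i h)) : K) : ℂ) * (2 * Real.pi * Complex.I) := by
    intro hR s hs
    obtain ⟨t, ht⟩ := hUrat hR s hs
    refine ⟨t, fun i => ?_⟩
    rw [hxY s i, tau_coe, Finset.sum_mul]
    congr 1
    apply Finset.sum_congr rfl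
    intro h _
    rw [ht]
    ring
  -- case B1
  have hB1 : ∀ v ∈ LinearMap.ker (Psi (om K) Af Rm),
      (∑ i, (v.2 : Fin (2 * dg K) → ℂ) (pr i 0) / om K 0 * x i) ≠ 0 → finrank ℤ G0 ≤ d1 := by
    intro v hv hz
    obtain ⟨ρ, hρ1, hρ2, hρ3⟩ := int_basis Rm
    have hN : ∀ s : G0, ∀ k, ∃ n : ℤ, ∑ q, (ρ k q : ℂ) * Uv s q =
        n * (2 * Real.pi * Complex.I) := fun s k => hG2 s s.2 _ (hρ1 k)
    choose N hN using hN
    have hUadd : ∀ s s' : Fin (3 * dg K) → ℤ, ∀ q, Uv (s + s') q = Uv s q + Uv s' q := by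
      intro s s' q
      simp only [Uv, Pi.add_apply]
      rw [← Finset.sum_add_distrib]
      apply Finset.sum_congr rfl
      intro p _
      push_cast; ring
    let f : G0 →+ (Fin (finrank ℤ Rm) → ℤ) := AddMonoidHom.mk' N (by
      intro s s'
      funext k
      have h1 : ((N (s + s') k : ℤ) : ℂ) * (2 * Real.pi * Complex.I) =
          ((N s k + N s' k : ℤ) : ℂ) * (2 * Real.pi * Complex.I) := by
        rw [← hN]
        push_cast
        rw [add_mul, ← hN s k, ← hN s' k, ← Finset.sum_add_distrib]
        apply Finset.sum_congr rfl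
        intro q _
        rw [hUadd]; ring
      exact_mod_cast mul_right_cancel₀ hpi h1)
    have hinj : Function.Injective f := by
      refine (injective_iff_map_eq_zero f).mpr ?_
      intro s hs
      have h1 : ∀ k, ∑ q, (ρ k q : ℂ) * Uv s q = 0 := by
        intro k
        rw [hN]
        have : N s k = 0 := congrFun hs k
        rw [this]; simp
      have h2 : ∀ m ∈ Rm, ∑ q, (m q : ℂ) * Uv s q = 0 := by
        intro m hm
        obtain ⟨c, hc⟩ := hρ2 m hm
        have h3 : ∀ q, (m q : ℂ) = ∑ k, (c k : ℂ) * (ρ k q : ℂ) := by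
          intro q
          rw [hc, Finset.sum_apply]
          push_cast
          apply Finset.sum_congr rfl
          intro k _
          simp
        simp only [h3, Finset.sum_mul]
        rw [Finset.sum_comm]
        apply Finset.sum_eq_zero
        intro k _
        have h4 : ∑ q, (c k : ℂ) * (ρ k q : ℂ) * Uv s q = (c k : ℂ) * ∑ q, (ρ k q : ℂ) * Uv s q := by
          rw [Finset.mul_sum]
          apply Finset.sum_congr rfl; intro q _; ring
        rw [h4, h1, mul_zero]
      have h3 := cSpan_zero Rm h2 _ v.2.2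
      obtain ⟨h4, h5⟩ := Psi_ker (om K) Af Rm hom0 hAf (LinearMap.mem_ker.mp hv)
      rw [sum_pr] at h3
      have h6 := hG1 s s.2 v hv
      have h7 : (∑ i, (v.2 : Fin (2 * dg K) → ℂ) (pr i 0) / om K 0 * x i) * Yv s = 0 := by
        rw [Finset.sum_mul]
        have h8 : ∀ i, (v.2 : Fin (2 * dg K) → ℂ) (pr i 0) / om K 0 * x i * Yv s =
            (v.2 : Fin (2 * dg K) → ℂ) (pr i 0) / om K 0 * Sv s i +
            ∑ h, (v.2 : Fin (2 * dg K) → ℂ) (pr i h) * Uv s (pr i h) := by
          intro i
          have h10 : (v.2 : Fin (2 * dg K) → ℂ) (pr i 0) / om K 0 *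
              ∑ h, om K h * Uv s (pr i h) =
              ∑ h, (v.2 : Fin (2 * dg K) → ℂ) (pr i h) * Uv s (pr i h) := by
            rw [Finset.mul_sum]
            apply Finset.sum_congr rfl
            intro h _
            rw [h5 i h]; ring
          rw [mul_assoc, hxY, mul_add, h10]
        simp only [h8]
        rw [Finset.sum_add_distrib, h6, h3, add_zero]
      have h8 := hY0 _ ((mul_eq_zero.mp h7).resolve_left hz)
      exact Subtype.ext h8
    have h9 : Function.Injective f.toIntLinearMap := hinj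
    have h10 := LinearMap.finrank_le_finrank_of_injective h9
    rw [Module.finrank_fintype_fun_eq_card, Fintype.card_fin] at h10
    exact h10
  -- case B: a nonzero kernel element
  have hB : ∀ v ∈ LinearMap.ker (Psi (om K) Af Rm), v ≠ 0 → 2 * dg K + 1 ≤ d1 + bb := by
    intro v hv hv0
    have hα : ¬ ((v.2 : Fin (2 * dg K) → ℂ) (pr 0 0) / om K 0 = 0 ∧
        (v.2 : Fin (2 * dg K) → ℂ) (pr 1 0) / om K 0 = 0) := by
      rintro ⟨h1, h2⟩
      apply hv0
      apply hkinj v hv
      funext i
      fin_cases i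
      · exact h1
      · exact h2
    by_cases hz : (∑ i, (v.2 : Fin (2 * dg K) → ℂ) (pr i 0) / om K 0 * x i) = 0
    · rw [Fin.sum_univ_two] at hz
      have hR : ratSpan Rm = ⊤ := by
        apply ratSpan_eq_top
        intro t ht
        have h1 := hT t ht v hv
        rw [Fin.sum_univ_two] at h1
        have h2 := prop2 hα h1 hz
        have h3 := hx (tau K (fun h => t (pr 1 h))) (-tau K (fun h => t (pr 0 h))) (by
          push_cast
          linear_combination h2)
        apply htau0
        intro i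
        fin_cases i
        · exact neg_eq_zero.mp h3.2
        · exact h3.1
      have hd1' : 2 * dg K ≤ d1 := by
        have := finrank_of_ratSpan_top hR
        rwa [Fintype.card_fin] at this
      by_contra hcon
      have hbb0 : bb = 0 := by omega
      have hGfull : ratSpan G0 = ⊤ := by
        apply ratSpan_eq_top_of_finrank
        rw [Fintype.card_fin]
        omega
      apply hne
      -- the relation for every column
      have hcol : ∀ j, ∃ t : Fin (2 * dg K) → ℚ, (∀ i, x i * y j = β i j +
          ((tau K (fun h => t (pr i h)) : K) : ℂ) * (2 * Real.pi * Complex.I) / om K 0) ∧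
          (v.2 : Fin (2 * dg K) → ℂ) (pr 0 0) / om K 0 * β 0 j +
          (v.2 : Fin (2 * dg K) → ℂ) (pr 1 0) / om K 0 * β 1 j = 0 := by
        intro j
        obtain ⟨N, hN, hs⟩ := single_mem hGfull (pt3 j 0)
        obtain ⟨t, ht⟩ := hxYrat hR _ hs
        have hN' : (N : ℂ) ≠ 0 := by exact_mod_cast hN.ne'
        have e1 : Yv (Pi.single (pt3 j 0) (N : ℤ)) = om K 0 * y j * N := by
          simp only [Yv]
          rw [Finset.sum_eq_single (pt3 j 0)]
          · rw [Pi.single_eq_same]
            unfold yv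
            rw [g1_pt, g2_pt]
            push_cast; ring
          · intro p _ hp
            rw [Pi.single_eq_of_ne hp]; simp
          · intro h; exact absurd (Finset.mem_univ _) h
        have e2 : ∀ i, Sv (Pi.single (pt3 j 0) (N : ℤ)) i = om K 0 * β i j * N := by
          intro i
          simp only [Sv]
          rw [Finset.sum_eq_single (pt3 j 0)]
          · rw [Pi.single_eq_same]
            unfold av
            rw [g1_pt, g2_pt]
            push_cast; ring
          · intro p _ hp
            rw [Pi.single_eq_of_ne hp]; simp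
          · intro h; exact absurd (Finset.mem_univ _) h
        refine ⟨fun q => t q / N, fun i => ?_, ?_⟩
        · have h1 := ht i
          rw [e1, e2] at h1
          have h2 : ((tau K (fun h => t (pr i h) / N) : K) : ℂ) =
              ((tau K (fun h => t (pr i h)) : K) : ℂ) / N := by
            rw [tau_coe, tau_coe, Finset.sum_div]
            apply Finset.sum_congr rfl
            intro h _
            push_cast; ring
          rw [h2]
          have h3 : x i * y j - β i j = ((tau K (fun h => t (pr i h)) : K) : ℂ) / N *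
              (2 * Real.pi * Complex.I) / om K 0 := by
            rw [eq_div_iff hom0, div_mul_eq_mul_div, eq_div_iff hN']
            linear_combination h1
          linear_combination h3
        · have h1 := hG1 _ hs v hv
          rw [Fin.sum_univ_two, e2, e2] at h1
          have h2 : (om K 0 * N) * ((v.2 : Fin (2 * dg K) → ℂ) (pr 0 0) / om K 0 * β 0 j +
              (v.2 : Fin (2 * dg K) → ℂ) (pr 1 0) / om K 0 * β 1 j) = 0 := by
            linear_combination h1
          exact (mul_eq_zero.mp h2).resolve_left (mul_ne_zero hom0 hN')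
      intro i j
      obtain ⟨t, ht, hβ0⟩ := hcol j
      have h1 : (v.2 : Fin (2 * dg K) → ℂ) (pr 0 0) / om K 0 *
          ((tau K (fun h => t (pr 0 h)) : K) : ℂ) +
          (v.2 : Fin (2 * dg K) → ℂ) (pr 1 0) / om K 0 *
          ((tau K (fun h => t (pr 1 h)) : K) : ℂ) = 0 := by
        have h2 := ht 0
        have h3 := ht 1
        have h4 : ((v.2 : Fin (2 * dg K) → ℂ) (pr 0 0) / om K 0 *
          ((tau K (fun h => t (pr 0 h)) : K) : ℂ) +
          (v.2 : Fin (2 * dg K) → ℂ) (pr 1 0) / om K 0 *
          ((tau K (fun h => t (pr 1 h)) : K) : ℂ)) *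
          ((2 * Real.pi * Complex.I) / om K 0) = 0 := by
          linear_combination (y j) * hz - hβ0 - (v.2 : Fin (2 * dg K) → ℂ) (pr 0 0) / om K 0 * h2
            - (v.2 : Fin (2 * dg K) → ℂ) (pr 1 0) / om K 0 * h3
        exact (mul_eq_zero.mp h4).resolve_right (div_ne_zero hpi hom0)
      have h2 := prop2 hα h1 hz
      have h3 := hx (tau K (fun h => t (pr 1 h))) (-tau K (fun h => t (pr 0 h))) (by
        push_cast
        linear_combination h2)
      have h4 : ∀ i, tau K (fun h => t (pr i h)) = 0 := by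
        intro i
        fin_cases i
        · exact neg_eq_zero.mp h3.2
        · exact h3.1
      rw [ht i, h4 i]
      simp
    · have h1 := hB1 v hv hz
      omega
  -- final case distinction
  rcases Nat.eq_zero_or_pos c' with h0 | hpos
  · -- c' = 0
    rw [h0, zero_mul] at hfin
    have h1 : d1 + bb = 0 := by
      rcases Nat.mul_eq_zero.mp (Nat.le_zero.mp hfin) with h | h
      · exact h
      · omega
    have hd1' : d1 = 0 := by omega
    have hbb' : bb = 0 := by omega
    have hd0' : d0 = 0 := by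
      rcases hineq with h | ⟨h, h', h''⟩
      · exfalso
        have h2 : wc * κ + bb * σ < d0 * κ + d1 * μ := h
        rw [hd1', hbb', zero_mul, zero_mul, add_zero, add_zero] at h2
        have h3 : wc < d0 := lt_of_mul_lt_mul_right h2 (Nat.zero_le _)
        omega
      · have : wc = 0 := h'
        omega
    apply hne0
    constructor
    · exact Submodule.finrank_eq_zero.mp hd0'
    · obtain ⟨ρ, hρ1, hρ2, hρ3⟩ := int_basis Rm
      rw [eq_bot_iff]
      intro m hm
      obtain ⟨c, hc⟩ := hρ2 m hm
      haveI : IsEmpty (Fin (finrank ℤ Rm)) := by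
        have : finrank ℤ Rm = 0 := hd1'
        rw [this]; infer_instance
      rw [hc]
      simp
  · -- nonzero kernel
    obtain ⟨v, hv0⟩ : ∃ v : LinearMap.ker (Psi (om K) Af Rm), v ≠ 0 := by
      haveI : Nontrivial (LinearMap.ker (Psi (om K) Af Rm)) :=
        Module.nontrivial_of_finrank_pos (R := ℂ) hpos
      exact exists_ne 0
    have h1 := hB v v.2 (fun h => hv0 (Subtype.ext h))
    rcases Nat.lt_or_ge c' 2 with h2 | h2
    · have h3 : c' = 1 := by omega
      rw [h3, one_mul] at hfin
      have h4 : (2 * dg K + 1) * σ ≤ (d1 + bb) * σ := Nat.mul_le_mul_right _ h1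
      omega
    · have h3 : c' = 2 := by omega
      obtain ⟨v0, hv0m, hv0'⟩ := hsurj h3 (Pi.single 0 1)
      obtain ⟨v1, hv1m, hv1'⟩ := hsurj h3 (Pi.single 1 1)
      have e00 : (v0.2 : Fin (2 * dg K) → ℂ) (pr 0 0) / om K 0 = 1 := by
        have := congrFun hv0' 0
        rw [Pi.single_eq_same] at this
        exact this
      have e01 : (v0.2 : Fin (2 * dg K) → ℂ) (pr 1 0) / om K 0 = 0 := by
        have := congrFun hv0' 1
        rw [Pi.single_eq_of_ne (by decide)] at this
        exact this
      have e10 : (v1.2 : Fin (2 * dg K) → ℂ) (pr 0 0) / om K 0 = 0 := by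
        have := congrFun hv1' 0
        rw [Pi.single_eq_of_ne (by decide)] at this
        exact this
      have e11 : (v1.2 : Fin (2 * dg K) → ℂ) (pr 1 0) / om K 0 = 1 := by
        have := congrFun hv1' 1
        rw [Pi.single_eq_same] at this
        exact this
      have hR : ratSpan Rm = ⊤ := by
        apply ratSpan_eq_top
        intro t ht
        apply htau0
        have q0 := hT t ht v0 hv0m
        have q1 := hT t ht v1 hv1m
        rw [Fin.sum_univ_two, e00, e01, one_mul, zero_mul, add_zero] at q0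
        rw [Fin.sum_univ_two, e10, e11, one_mul, zero_mul, zero_add] at q1
        intro i
        fin_cases i
        · exact_mod_cast q0
        · exact_mod_cast q1
      have hd1' : 2 * dg K ≤ d1 := by
        have := finrank_of_ratSpan_top hR
        rwa [Fintype.card_fin] at this
      have hG0bot : G0 = ⊥ := by
        rw [eq_bot_iff]
        intro s hs
        rw [AddSubgroup.mem_bot]
        apply hY0
        obtain ⟨t, ht⟩ := hxYrat hR s hs
        have s0 := hG1 s hs v0 hv0m
        have s1 := hG1 s hs v1 hv1m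
        rw [Fin.sum_univ_two, e00, e01, one_mul, zero_mul, add_zero] at s0
        rw [Fin.sum_univ_two, e10, e11, one_mul, zero_mul, zero_add] at s1
        have t0 := ht 0
        have t1 := ht 1
        rw [s0, zero_add] at t0
        rw [s1, zero_add] at t1
        by_contra hY
        have h5 := hx (tau K (fun h => t (pr 1 h))) (-tau K (fun h => t (pr 0 h))) (by
          have h6 : Yv s * (((tau K (fun h => t (pr 1 h)) : K) : ℂ) * x 0 +
              ((-tau K (fun h => t (pr 0 h)) : K) : ℂ) * x 1) = 0 := by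
            push_cast
            linear_combination ((tau K (fun h => t (pr 1 h)) : K) : ℂ) * t0 -
              ((tau K (fun h => t (pr 0 h)) : K) : ℂ) * t1
          exact (mul_eq_zero.mp h6).resolve_left hY)
        have h6 : tau K (fun h => t (pr 0 h)) = 0 := neg_eq_zero.mp h5.2
        rw [h6] at t0
        simp only [ZeroMemClass.coe_zero, zero_mul] at t0
        rcases mul_eq_zero.mp t0 with h | h
        · exact hx0 h
        · exact hY h
      have hbb' : bb = 3 * dg K := by
        have : finrank ℤ G0 = 0 := by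
          rw [hG0bot]
          exact Module.finrank_zero_of_subsingleton
        omega
      rw [h3] at hfin
      have h4 : (4 * dg K + 1) * σ ≤ (d1 + bb) * σ := Nat.mul_le_mul_right _ (by omega)
      omega

end Pool.Agent.H301R2.SSE
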