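import Pool.Agent.H301R2.SSE.Final
import Pool.Agent.H297R2.InBakerThm
import Pool.Agent.H340R2.LW

set_option autoImplicit false

namespace Pool.Agent.H301R2.SSE

open Module Finset Pool.Agent.H301R2.ZG

/-- **Sharp and strong six exponentials theorem**, over an arbitrary number field `K ⊆ ℂ`. -/
theorem sharp_strong (K : IntermediateField ℚ ℂ) [FiniteDimensional ℚ K] (x : Fin 2 → ℂ)
    (y : Fin 3 → ℂ) (β : Fin 2 → Fin 3 → ℂ)
    (hx : ∀ a b : K, (a : ℂ) * x 0 + (b : ℂ) * x 1 = 0 → a = 0 ∧ b = 0)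
    (hy : ∀ c : Fin 3 → K, ∑ j, (c j : ℂ) * y j = 0 → ∀ j, c j = 0)
    (hβ : ∀ i j, IsAlgebraic ℚ (β i j))
    (h : ∀ i j, x i * y j - β i j ∈ Submodule.span K {z : ℂ | IsAlgebraic ℚ (Complex.exp z)}) :
    ∀ i j, x i * y j = β i j := by
  choose u hu1 hu2 using fun i j => span_K K (h i j)
  refine sharp_strong_core K x y β u hx hy hβ hu1 ?_
  intro i j
  rw [← hu2 i j]; ring

/-- the field of algebraic numbers -/
noncomputable abbrev QB : IntermediateField ℚ ℂ := algebraicClosure ℚ ℂ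

theorem mem_QB {z : ℂ} : z ∈ QB ↔ IsAlgebraic ℚ z := mem_algebraicClosure_iff

/-- the space of linear forms in `1` and logarithms, with algebraic coefficients -/
noncomputable def Lt : Submodule QB ℂ :=
  Submodule.span QB ({1} ∪ {z : ℂ | IsAlgebraic ℚ (Complex.exp z)})

/-- homogeneous version -/
noncomputable def LB : Submodule QB ℂ := Submodule.span QB {z : ℂ | IsAlgebraic ℚ (Complex.exp z)}

theorem Lt_mul {a z : ℂ} (ha : IsAlgebraic ℚ a) (hz : z ∈ Lt) : a * z ∈ Lt :=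
  Lt.smul_mem (⟨a, mem_QB.mpr ha⟩ : QB) hz

theorem LB_mul {a z : ℂ} (ha : IsAlgebraic ℚ a) (hz : z ∈ LB) : a * z ∈ LB :=
  LB.smul_mem (⟨a, mem_QB.mpr ha⟩ : QB) hz

theorem Lt_one : (1 : ℂ) ∈ Lt := Submodule.subset_span (Or.inl rfl)

theorem Lt_alg {a : ℂ} (ha : IsAlgebraic ℚ a) : a ∈ Lt := by
  have := Lt_mul ha Lt_one
  rwa [mul_one] at this

theorem Lt_log {z : ℂ} (hz : IsAlgebraic ℚ (Complex.exp z)) : z ∈ Lt :=
  Submodule.subset_span (Or.inr hz)

theorem LB_log {z : ℂ} (hz : IsAlgebraic ℚ (Complex.exp z)) : z ∈ LB :=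
  Submodule.subset_span hz

theorem Lt_rep {z : ℂ} (hz : z ∈ Lt) : ∃ S : Finset ℂ, (∀ a ∈ S, IsAlgebraic ℚ a) ∧
    ∀ K : IntermediateField ℚ ℂ, (∀ a ∈ S, a ∈ K) → ∃ β ∈ K,
      z - β ∈ Submodule.span K {z : ℂ | IsAlgebraic ℚ (Complex.exp z)} := by
  classical
  refine Submodule.span_induction (p := fun z _ => ∃ S : Finset ℂ, (∀ a ∈ S, IsAlgebraic ℚ a) ∧
    ∀ K : IntermediateField ℚ ℂ, (∀ a ∈ S, a ∈ K) → ∃ β ∈ K,
      z - β ∈ Submodule.span K {z : ℂ | IsAlgebraic ℚ (Complex.exp z)}) ?_ ?_ ?_ ?_ hz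
  · rintro z (hz | hz)
    · rw [Set.mem_singleton_iff] at hz
      subst hz
      exact ⟨∅, by simp, fun K _ => ⟨1, K.one_mem, by rw [sub_self]; exact Submodule.zero_mem _⟩⟩
    · exact ⟨∅, by simp, fun K _ => ⟨0, K.zero_mem, by
        rw [sub_zero]; exact Submodule.subset_span hz⟩⟩
  · exact ⟨∅, by simp, fun K _ => ⟨0, K.zero_mem, by rw [sub_zero]; exact Submodule.zero_mem _⟩⟩
  · rintro z z' _ _ ⟨S, hS, h⟩ ⟨S', hS', h'⟩
    refine ⟨S ∪ S', fun a ha => ?_, fun K hK => ?_⟩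
    · rcases Finset.mem_union.mp ha with h1 | h1
      · exact hS a h1
      · exact hS' a h1
    · obtain ⟨β, hβ, hz⟩ := h K (fun a ha => hK a (Finset.mem_union_left _ ha))
      obtain ⟨β', hβ', hz'⟩ := h' K (fun a ha => hK a (Finset.mem_union_right _ ha))
      refine ⟨β + β', K.add_mem hβ hβ', ?_⟩
      have : z + z' - (β + β') = (z - β) + (z' - β') := by ring
      rw [this]
      exact Submodule.add_mem _ hz hz'
  · rintro a z _ ⟨S, hS, h⟩
    refine ⟨insert (a : ℂ) S, fun b hb => ?_, fun K hK => ?_⟩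
    · rcases Finset.mem_insert.mp hb with h1 | h1
      · rw [h1]; exact mem_QB.mp a.2
      · exact hS b h1
    · obtain ⟨β, hβ, hz⟩ := h K (fun b hb => hK b (Finset.mem_insert_of_mem hb))
      have haK : (a : ℂ) ∈ K := hK a (Finset.mem_insert_self _ _)
      refine ⟨a * β, K.mul_mem haK hβ, ?_⟩
      have : a • z - a * β = (⟨(a : ℂ), haK⟩ : K) • (z - β) := by
        rw [Algebra.smul_def, Algebra.smul_def, mul_sub]
        rfl
      rw [this]
      exact Submodule.smul_mem _ _ hz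

/-- **Strong six exponentials theorem** (D. Roy). -/
theorem strong_six (x : Fin 2 → ℂ) (y : Fin 3 → ℂ)
    (hx : ∀ a b : ℂ, IsAlgebraic ℚ a → IsAlgebraic ℚ b → a * x 0 + b * x 1 = 0 → a = 0 ∧ b = 0)
    (hy : ∀ c : Fin 3 → ℂ, (∀ j, IsAlgebraic ℚ (c j)) → ∑ j, c j * y j = 0 → ∀ j, c j = 0)
    (h : ∀ i j, x i * y j ∈ Lt) : False := by
  classical
  choose S hS h using fun i j => Lt_rep (h i j)
  let T : Finset ℂ := Finset.univ.biUnion (fun ij : Fin 2 × Fin 3 => S ij.1 ij.2)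
  have hT : ∀ a ∈ T, IsAlgebraic ℚ a := by
    intro a ha
    obtain ⟨ij, -, h1⟩ := Finset.mem_biUnion.mp ha
    exact hS _ _ a h1
  let K : IntermediateField ℚ ℂ := IntermediateField.adjoin ℚ (T : Set ℂ)
  haveI : FiniteDimensional ℚ K := by
    apply IntermediateField.finiteDimensional_adjoin
    intro x hx
    exact (hT x hx).isIntegral
  have hKalg : ∀ a : K, IsAlgebraic ℚ (a : ℂ) := fun a =>
    (Algebra.IsAlgebraic.isAlgebraic (R := ℚ) a).algebraMap (A := ℂ)
  choose β hβ hlog using fun i j => h i j K (fun a ha => by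
    apply IntermediateField.subset_adjoin ℚ (T : Set ℂ)
    exact Finset.mem_biUnion.mpr ⟨(i, j), Finset.mem_univ _, ha⟩)
  have hconc := sharp_strong K x y β (by
      intro a b hab
      obtain ⟨h1, h2⟩ := hx a b (hKalg a) (hKalg b) hab
      exact ⟨Subtype.ext h1, Subtype.ext h2⟩) (by
      intro c hc j
      exact Subtype.ext (hy (fun j => (c j : ℂ)) (fun j => hKalg _) hc j))
    (fun i j => hKalg ⟨β i j, hβ i j⟩) hlog
  have h1 := hconc 0 0
  have h2 := hconc 0 1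
  have hx0 : x 0 ≠ 0 := by
    intro h0
    have := (hx 1 0 isAlgebraic_one isAlgebraic_zero (by simp [h0])).1
    exact one_ne_zero this
  have h3 := hy ![β 0 1, -β 0 0, 0] (by
    intro j
    fin_cases j
    · exact hKalg ⟨β 0 1, hβ 0 1⟩
    · exact (hKalg ⟨β 0 0, hβ 0 0⟩).neg
    · exact isAlgebraic_zero) (by
    rw [Fin.sum_univ_three]
    simp only [Matrix.cons_val_zero, Matrix.cons_val_one, Matrix.cons_val]
    rw [← h1, ← h2]; ring)
  have h4 : β 0 0 = 0 := neg_eq_zero.mp (h3 1)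
  rw [h4] at h1
  have hy0 : y 0 = 0 := (mul_eq_zero.mp h1).resolve_left hx0
  have h5 := hy ![1, 0, 0] (by
    intro j
    fin_cases j
    · exact isAlgebraic_one
    · exact isAlgebraic_zero
    · exact isAlgebraic_zero) (by
    rw [Fin.sum_univ_three]
    simp [hy0]) 0
  exact one_ne_zero h5

/-- **Baker**: `1` is not a linear combination of logarithms. -/
theorem LB_alg {z : ℂ} (hz : z ∈ LB) (halg : IsAlgebraic ℚ z) : z = 0 := by
  classical
  unfold LB at hz
  rw [Submodule.mem_span_iff_exists_finset_subset] at hz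
  obtain ⟨f, t, ht, -, hf⟩ := hz
  -- a rational basis of the logarithms
  obtain ⟨κ, a, ha, hsp, hli⟩ := exists_linearIndependent' ℚ (fun w : t => (w : ℂ))
  haveI : Finite κ := Finite.of_injective a ha
  haveI : Fintype κ := Fintype.ofFinite κ
  have hrep : ∀ w : t, ∃ q : κ → ℚ, (w : ℂ) = ∑ k, (q k : ℂ) * ((a k : t) : ℂ) := by
    intro w
    have h1 : (w : ℂ) ∈ Submodule.span ℚ (Set.range ((fun w : t => (w : ℂ)) ∘ a)) := by
      rw [hsp]; exact Submodule.subset_span ⟨w, rfl⟩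
    rw [Submodule.mem_span_range_iff_exists_fun] at h1
    obtain ⟨q, hq⟩ := h1
    refine ⟨q, ?_⟩
    rw [← hq]
    apply Finset.sum_congr rfl
    intro k _
    rw [Rat.smul_def]
    rfl
  choose q hq using hrep
  -- reindex to Type 0 indices
  let e := Fintype.equivFin κ
  have hb := Pool.Agent.H297R2.baker_inhom (ι := Fin (Fintype.card κ))
    (fun k => ((a (e.symm k) : t) : ℂ)) (fun k => ht (a (e.symm k)).2)
    (by
      have := hli.comp e.symm e.symm.injective
      exact this)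
    (-z) halg.neg (fun k => ∑ w : t, (f w : ℂ) * (q w (e.symm k) : ℂ)) (by
      intro k
      rw [← mem_QB]
      apply sum_mem
      intro w _
      refine mul_mem (f w).2 ?_
      rw [mem_QB]
      exact isAlgebraic_algebraMap (q w (e.symm k))) ?_
  · exact neg_eq_zero.mp hb.1
  · have h1 : ∑ k : Fin (Fintype.card κ), (∑ w : t, (f w : ℂ) * (q w (e.symm k) : ℂ)) *
        ((a (e.symm k) : t) : ℂ) = ∑ k : κ, (∑ w : t, (f w : ℂ) * (q w k : ℂ)) * ((a k : t) : ℂ) :=
      Equiv.sum_comp e.symm (fun k => (∑ w : t, (f w : ℂ) * (q w k : ℂ)) * ((a k : t) : ℂ))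
    rw [h1]
    have h2 : ∑ k : κ, (∑ w : t, (f w : ℂ) * (q w k : ℂ)) * ((a k : t) : ℂ) = z := by
      rw [← hf, ← Finset.sum_coe_sort t (fun w => f w • w)]
      simp only [Finset.sum_mul]
      rw [Finset.sum_comm]
      apply Finset.sum_congr rfl
      intro w _
      have h3 : f (w : ℂ) • (w : ℂ) = (f (w : ℂ) : ℂ) * (w : ℂ) := by
        rw [Algebra.smul_def]; rfl
      have h4 : (f (w : ℂ) : ℂ) * (w : ℂ)
          = (f (w : ℂ) : ℂ) * ∑ k, ((q w k : ℚ) : ℂ) * ((a k : t) : ℂ) :=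
        congrArg (fun v => (f (w : ℂ) : ℂ) * v) (hq w)
      rw [h3, h4, Finset.mul_sum]
      apply Finset.sum_congr rfl
      intro k _
      ring
    rw [h2]; ring

end Pool.Agent.H301R2.SSE
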