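import Pool.Agent.H301R2.ZG.LA

set_option autoImplicit false

namespace Pool.Agent.H301R2.SSE

open Module Pool.Agent.H301R2.ZG

theorem ortho_le {K : Type*} [Field K] {n : ℕ} (V W : Submodule K (Fin n → K))
    (h : ∀ v ∈ V, ∀ c ∈ W, ∑ i, v i * c i = 0) : finrank K V + finrank K W ≤ n := by
  classical
  obtain ⟨e, v, hv, hev⟩ := exists_dual V
  let φ : (Fin n → K) →ₗ[K] (Fin (finrank K V) → K) :=
    LinearMap.pi (fun k => ∑ i, (v k i) • (LinearMap.proj i : (Fin n → K) →ₗ[K] K))
  have hφ : ∀ c k, φ c k = ∑ i, v k i * c i := by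
    intro c k
    simp [φ, LinearMap.sum_apply]
  have hsurj : Function.Surjective φ := by
    intro z
    refine ⟨∑ k, z k • (Pi.single (e k) 1 : Fin n → K), ?_⟩
    funext k
    rw [hφ]
    have h1 : ∀ i, v k i * (∑ k', z k' • (Pi.single (e k') 1 : Fin n → K)) i =
        ∑ k', z k' * (v k i * (Pi.single (e k') (1 : K) : Fin n → K) i) := by
      intro i
      rw [Finset.sum_apply, Finset.mul_sum]
      apply Finset.sum_congr rfl
      intro k' _
      simp only [Pi.smul_apply, smul_eq_mul]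
      ring
    simp only [h1]
    rw [Finset.sum_comm]
    have h2 : ∀ k', ∑ i, z k' * (v k i * (Pi.single (e k') (1 : K) : Fin n → K) i) =
        z k' * (if k' = k then 1 else 0) := by
      intro k'
      rw [← Finset.mul_sum]
      congr 1
      rw [Finset.sum_eq_single (e k')]
      · rw [Pi.single_eq_same, mul_one, hev k' k]
      · intro i _ hi
        rw [Pi.single_eq_of_ne hi, mul_zero]
      · intro hh; exact absurd (Finset.mem_univ _) hh
    simp only [h2]
    simp
  have h3 := LinearMap.finrank_range_add_finrank_ker φ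
  rw [LinearMap.range_eq_top.mpr hsurj, finrank_top, Module.finrank_fintype_fun_eq_card,
    Module.finrank_fintype_fun_eq_card, Fintype.card_fin, Fintype.card_fin] at h3
  have h4 : W ≤ LinearMap.ker φ := by
    intro c hc
    rw [LinearMap.mem_ker]
    funext k
    rw [hφ]
    exact h _ (hv k) c hc
  have h5 := Submodule.finrank_mono h4
  omega

section

variable {ι : Type*} [Fintype ι]

theorem int_basis (R : AddSubgroup (ι → ℤ)) :
    ∃ ρ : Fin (finrank ℤ R) → (ι → ℤ), (∀ k, ρ k ∈ R) ∧
      (∀ m ∈ R, ∃ c : Fin (finrank ℤ R) → ℤ, m = ∑ k, c k • ρ k) ∧ LinearIndependent ℤ ρ := by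
  classical
  let R' : Submodule ℤ (ι → ℤ) := AddSubgroup.toIntSubmodule R
  let B : Basis (Fin (finrank ℤ R')) ℤ R' := Module.finBasis ℤ R'
  refine ⟨fun k => (B k : ι → ℤ), fun k => (B k).2, ?_, ?_⟩
  · intro m hm
    refine ⟨fun k => B.repr ⟨m, hm⟩ k, ?_⟩
    have h1 := B.sum_repr ⟨m, hm⟩
    have h2 := congrArg (Submodule.subtype R') h1
    rw [map_sum] at h2
    simp only [map_smul] at h2
    exact h2.symm
  · exact B.linearIndependent.map' (Submodule.subtype R') (Submodule.ker_subtype R')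

omit [Fintype ι] in
theorem rat_indep {κ : Type*} {ρ : κ → (ι → ℤ)} (h : LinearIndependent ℤ ρ) :
    LinearIndependent ℚ (fun k => (fun j => ((ρ k j : ℤ) : ℚ))) := by
  rw [← LinearIndependent.iff_fractionRing ℤ ℚ]
  let f : (ι → ℤ) →ₗ[ℤ] (ι → ℚ) :=
    { toFun := fun m j => ((m j : ℤ) : ℚ)
      map_add' := by intro a b; funext j; simp
      map_smul' := by intro a b; funext j; simp }
  have hf : LinearMap.ker f = ⊥ := by
    rw [LinearMap.ker_eq_bot']
    intro m hm
    funext j
    have := congrFun hm j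
    have h2 : ((m j : ℤ) : ℚ) = 0 := this
    exact_mod_cast h2
  exact h.map' f hf

theorem finrank_int_le_rat (R : AddSubgroup (ι → ℤ)) : finrank ℤ R ≤ finrank ℚ (ratSpan R) := by
  obtain ⟨ρ, h1, h2, h3⟩ := int_basis R
  have h4 := rat_indep h3
  have hmem : ∀ k, (fun j => ((ρ k j : ℤ) : ℚ)) ∈ ratSpan R := fun k =>
    Submodule.subset_span ⟨ρ k, h1 k, rfl⟩
  have hli : LinearIndependent ℚ (fun k => (⟨_, hmem k⟩ : ratSpan R)) := by
    apply LinearIndependent.of_comp (Submodule.subtype _)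
    exact h4
  have := hli.fintype_card_le_finrank
  simpa using this

theorem finrank_int_le_c [DecidableEq ι] (R : AddSubgroup (ι → ℤ)) :
    finrank ℤ R ≤ finrank ℂ (cSpan R) := (finrank_int_le_rat R).trans (finrank_cSpan R)

omit [Fintype ι] in
theorem single_mem [DecidableEq ι] {R : AddSubgroup (ι → ℤ)} (h : ratSpan R = ⊤) (j : ι) :
    ∃ N : ℕ, 0 < N ∧ (Pi.single j (N : ℤ) : ι → ℤ) ∈ R := by
  have h1 : (Pi.single j 1 : ι → ℚ) ∈ ratSpan R := by rw [h]; trivial
  obtain ⟨N, hN, ρ, hρ, h2⟩ := mem_ratSpan h1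
  refine ⟨N, hN, ?_⟩
  have : (Pi.single j (N : ℤ) : ι → ℤ) = ρ := by
    funext i
    have h3 := h2 i
    by_cases hij : i = j
    · subst hij
      rw [Pi.single_eq_same, mul_one] at h3
      rw [Pi.single_eq_same]
      exact_mod_cast h3.symm
    · rw [Pi.single_eq_of_ne hij, mul_zero] at h3
      rw [Pi.single_eq_of_ne hij]
      exact_mod_cast h3.symm
  rw [this]; exact hρ

theorem ratSpan_eq_top_of_finrank {R : AddSubgroup (ι → ℤ)} (h : Fintype.card ι ≤ finrank ℤ R) :
    ratSpan R = ⊤ := by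
  apply Submodule.eq_top_of_finrank_eq
  have h1 := finrank_int_le_rat R
  have h2 := Submodule.finrank_le (ratSpan R)
  rw [Module.finrank_fintype_fun_eq_card] at h2 ⊢
  omega

omit [Fintype ι] in
theorem single_indep [DecidableEq ι] (N : ι → ℕ) (hN : ∀ j, 0 < N j) :
    LinearIndependent ℤ (fun j => (Pi.single j (N j : ℤ) : ι → ℤ)) := by
  rw [linearIndependent_iff']
  intro s g hg j hj
  have h1 := congrFun hg j
  rw [Finset.sum_apply, Finset.sum_eq_single j] at h1
  · simp only [Pi.smul_apply, Pi.single_eq_same, smul_eq_mul, Pi.zero_apply] at h1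
    rcases mul_eq_zero.mp h1 with h2 | h2
    · exact h2
    · exact absurd h2 (by have := hN j; omega)
  · intro i _ hij
    rw [Pi.smul_apply, Pi.single_eq_of_ne hij.symm, smul_zero]
  · intro h; exact absurd hj h

theorem finrank_of_ratSpan_top [DecidableEq ι] {R : AddSubgroup (ι → ℤ)} (h : ratSpan R = ⊤) :
    Fintype.card ι ≤ finrank ℤ R := by
  choose N hN hmem using single_mem h
  have hli : LinearIndependent ℤ (fun j => (⟨_, hmem j⟩ : AddSubgroup.toIntSubmodule R)) := by
    apply LinearIndependent.of_comp (Submodule.subtype _)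
    exact single_indep N hN
  have := hli.fintype_card_le_finrank
  exact this

/-- criterion for full rank -/
theorem ratSpan_eq_top [DecidableEq ι] {R : AddSubgroup (ι → ℤ)}
    (h : ∀ t : ι → ℚ, (∀ m ∈ R, ∑ j, t j * (m j : ℚ) = 0) → t = 0) : ratSpan R = ⊤ := by
  by_contra hne
  obtain ⟨f, hf0, hf⟩ := Submodule.exists_le_ker_of_lt_top (ratSpan R) (lt_top_iff_ne_top.mpr hne)
  apply hf0
  have h1 : ∀ v : ι → ℚ, f v = ∑ j, f (Pi.single j 1) * v j := by
    intro v
    conv_lhs => rw [← Finset.univ_sum_single v]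
    rw [map_sum]
    apply Finset.sum_congr rfl
    intro j _
    have : (Pi.single j (v j) : ι → ℚ) = v j • (Pi.single j 1 : ι → ℚ) := by
      rw [← Pi.single_smul, smul_eq_mul, mul_one]
    rw [this, map_smul, smul_eq_mul, mul_comm]
  have h2 := h (fun j => f (Pi.single j 1)) (by
    intro m hm
    have h3 : f (fun j => ((m j : ℤ) : ℚ)) = 0 :=
      hf (Submodule.subset_span ⟨m, hm, rfl⟩)
    rw [h1] at h3
    exact h3)
  apply LinearMap.ext
  intro v
  rw [h1]
  simp only [LinearMap.zero_apply]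
  apply Finset.sum_eq_zero
  intro j _
  rw [congrFun h2 j]
  simp

end

end Pool.Agent.H301R2.SSE
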