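import Pool.Agent.H301R2.SSE.Core

set_option autoImplicit false

namespace Pool.Agent.H301R2.SSE

open Module Finset Pool.Agent.H301R2.ZG

section alg

variable {D : ℕ} [NeZero D] (om : Fin D → ℂ) (Af : Submodule ℂ (Fin (2 * D) → ℂ))
  (Rm : AddSubgroup (Fin (2 * D) → ℤ))

/-- the functional on the space of directions attached to `(a,r)` -/
noncomputable def Psi : (Af × cSpan Rm) →ₗ[ℂ] (Fin (2 * D) → ℂ) where
  toFun v := fun d => (v.1 : Fin (2 * D) → ℂ) d + ∑ q, (v.2 : Fin (2 * D) → ℂ) q * gam om d q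
  map_add' v v' := by
    funext d
    simp only [Prod.fst_add, Prod.snd_add, Submodule.coe_add, Pi.add_apply, add_mul,
      Finset.sum_add_distrib]
    ring
  map_smul' c v := by
    funext d
    simp only [Prod.smul_fst, Prod.smul_snd, Submodule.coe_smul, Pi.smul_apply, smul_eq_mul,
      RingHom.id_apply, mul_add, Finset.mul_sum]
    congr 1
    apply Finset.sum_congr rfl
    intro q _
    ring

/-- kernel elements -/
theorem Psi_ker (hom : om 0 ≠ 0) (hAf : ∀ a ∈ Af, ∀ d, f2 d ≠ 0 → a d = 0)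
    {v : Af × cSpan Rm} (hv : Psi om Af Rm v = 0) :
    (∀ i, (v.1 : Fin (2 * D) → ℂ) (pr i 0) = (v.2 : Fin (2 * D) → ℂ) (pr i 0) / om 0) ∧
    (∀ i h, (v.2 : Fin (2 * D) → ℂ) (pr i h) = (v.2 : Fin (2 * D) → ℂ) (pr i 0) / om 0 * om h) := by
  have h1 : ∀ i h, (v.1 : Fin (2 * D) → ℂ) (pr i h) +
      ((v.2 : Fin (2 * D) → ℂ) (pr i 0) * (if h = 0 then -1 / om 0 else -om h / om 0) +
        (if h = 0 then 0 else (v.2 : Fin (2 * D) → ℂ) (pr i h))) = 0 := by
    intro i h
    have h2 := congrFun hv (pr i h)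
    change (v.1 : Fin (2 * D) → ℂ) (pr i h) + ∑ q, (v.2 : Fin (2 * D) → ℂ) q * gam om (pr i h) q
      = 0 at h2
    have hsum : ∑ q, (v.2 : Fin (2 * D) → ℂ) q * gam om (pr i h) q =
      ((v.2 : Fin (2 * D) → ℂ) (pr i 0) * (if h = 0 then -1 / om 0 else -om h / om 0) +
        (if h = 0 then 0 else (v.2 : Fin (2 * D) → ℂ) (pr i h))) := ?_
    · rw [hsum] at h2
      exact h2
    rw [sum_pr, Finset.sum_eq_single i]
    · have h3 : ∀ h', (v.2 : Fin (2 * D) → ℂ) (pr i h') * gam om (pr i h) (pr i h') =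
          (if h' = 0 then (v.2 : Fin (2 * D) → ℂ) (pr i 0) *
            (if h = 0 then -1 / om 0 else -om h / om 0) else 0) +
          (if h' = h then (if h = 0 then 0 else (v.2 : Fin (2 * D) → ℂ) (pr i h)) else 0) := by
        intro h'
        unfold gam
        rw [f1_pr, f1_pr, f2_pr, f2_pr, if_pos rfl]
        by_cases h0 : h' = 0
        · subst h0
          rw [if_pos rfl, if_pos rfl]
          by_cases hh : h = 0
          · subst hh; simp
          · rw [if_neg hh, if_neg (fun e => hh e.symm)]; ring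
        · rw [if_neg h0, if_neg h0]
          by_cases hh : h = h'
          · subst hh
            rw [if_pos rfl, if_pos rfl, if_neg h0]; ring
          · rw [if_neg hh, if_neg (fun e => hh e.symm)]; ring
      simp only [h3]
      rw [Finset.sum_add_distrib, Finset.sum_ite_eq' Finset.univ (0 : Fin D),
        Finset.sum_ite_eq' Finset.univ h, if_pos (Finset.mem_univ _), if_pos (Finset.mem_univ _)]
    · intro i' _ hi'
      apply Finset.sum_eq_zero
      intro h' _
      unfold gam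
      rw [f1_pr, f1_pr, if_neg (fun e => hi' e.symm), mul_zero]
    · intro h; exact absurd (Finset.mem_univ _) h
  constructor
  · intro i
    have h2 := h1 i 0
    rw [if_pos rfl, if_pos rfl, add_zero] at h2
    linear_combination h2
  · intro i h
    by_cases hh : h = 0
    · subst hh
      rw [div_mul_cancel₀ _ hom]
    · have h2 := h1 i h
      rw [if_neg hh, if_neg hh, hAf _ v.1.2 _ (by rw [f2_pr]; exact hh)] at h2
      linear_combination h2

theorem Psi_W0 (W0 : Submodule ℂ (Fin (2 * D) → ℂ))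
    (hW0 : ∀ c, c ∈ W0 ↔ (∀ a ∈ Af, ∑ i, a i * c i = 0) ∧
        ∀ m ∈ Rm, ∑ j, (m j : ℂ) * ∑ i, c i * gam om i j = 0) :
    finrank ℂ (LinearMap.range (Psi om Af Rm)) + finrank ℂ W0 ≤ 2 * D := by
  apply ortho_le
  rintro _ ⟨v, rfl⟩ c hc
  rw [hW0] at hc
  obtain ⟨hc1, hc2⟩ := hc
  have h1 : ∀ r ∈ cSpan Rm, ∑ q, r q * ∑ i, c i * gam om i q = 0 := by
    intro r hr
    refine Submodule.span_induction (p := fun r _ => ∑ q, r q * ∑ i, c i * gam om i q = 0)
      ?_ ?_ ?_ ?_ hr
    · rintro _ ⟨m, hm, rfl⟩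
      exact hc2 m hm
    · simp
    · intro r r' _ _ h h'
      simp only [Pi.add_apply, add_mul, Finset.sum_add_distrib, h, h', add_zero]
    · intro a r _ h
      simp only [Pi.smul_apply, smul_eq_mul, mul_assoc, ← Finset.mul_sum, h, mul_zero]
  have h2 := hc1 _ v.1.2
  have h3 := h1 _ v.2.2
  change ∑ d, ((v.1 : Fin (2 * D) → ℂ) d + ∑ q, (v.2 : Fin (2 * D) → ℂ) q * gam om d q) * c d = 0
  have h4 : ∑ d, ((v.1 : Fin (2 * D) → ℂ) d + ∑ q, (v.2 : Fin (2 * D) → ℂ) q * gam om d q) * c d =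
      ∑ i, (v.1 : Fin (2 * D) → ℂ) i * c i +
      ∑ q, (v.2 : Fin (2 * D) → ℂ) q * ∑ i, c i * gam om i q := by
    simp only [add_mul, Finset.sum_add_distrib, Finset.sum_mul, Finset.mul_sum]
    congr 1
    rw [Finset.sum_comm]
    apply Finset.sum_congr rfl; intro q _
    apply Finset.sum_congr rfl; intro d _
    ring
  rw [h4, h2, h3, add_zero]

end alg

end Pool.Agent.H301R2.SSE
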