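import Pool.Agent.H301R2.SSE.Forms
import Pool.Agent.H297R2.InBakerThm
import Pool.Agent.H340R2.LW

set_option autoImplicit false

namespace Pool.Agent.H301R2.Nine

open Pool.Agent.H301R2.SSE

/-- `IsAlgebraic` passes to complex numbers -/
theorem toC {r : ℝ} (h : IsAlgebraic ℚ r) : IsAlgebraic ℚ (r : ℂ) := by
  have := h.algebraMap (A := ℂ)
  simpa using this

theorem ofC {r : ℝ} (h : IsAlgebraic ℚ (r : ℂ)) : IsAlgebraic ℚ r :=
  (isAlgebraic_algebraMap_iff (A := ℂ) (FaithfulSMul.algebraMap_injective ℝ ℂ)).mp (by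
    simpa using h)

theorem algI : IsAlgebraic ℚ Complex.I := Pool.Agent.H340R2.LW.isAlgebraic_I

/-- Baker for `1, π, t` with `t ≠ 0` real and `exp t` algebraic -/
theorem pi_log {t : ℝ} (ht : t ≠ 0) (hexp : IsAlgebraic ℚ (Real.exp t)) {a b c : ℂ}
    (ha : IsAlgebraic ℚ a) (hb : IsAlgebraic ℚ b) (hc : IsAlgebraic ℚ c)
    (h : a + b * (Real.pi : ℂ) + c * (t : ℂ) = 0) : a = 0 ∧ b = 0 ∧ c = 0 := by
  let ω : Fin 2 → ℂ := ![(t : ℂ), Real.pi * Complex.I]
  have halg : ∀ i, IsAlgebraic ℚ (Complex.exp (ω i)) := by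
    intro i
    fin_cases i
    · change IsAlgebraic ℚ (Complex.exp (t : ℂ))
      rw [← Complex.ofReal_exp]
      exact toC hexp
    · change IsAlgebraic ℚ (Complex.exp (Real.pi * Complex.I))
      rw [Complex.exp_pi_mul_I]
      exact isAlgebraic_one.neg
  have hω : LinearIndependent ℚ ω := by
    rw [LinearIndependent.pair_iff]
    intro s u hst
    have hre := congrArg Complex.re hst
    have him := congrArg Complex.im hst
    simp only [ω, Matrix.cons_val_zero, Matrix.cons_val_one, Rat.smul_def, Complex.add_re,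
      Complex.add_im, Complex.mul_re, Complex.mul_im, Complex.ratCast_re, Complex.ratCast_im,
      Complex.ofReal_re, Complex.ofReal_im, Complex.I_re, Complex.I_im, Complex.zero_re,
      Complex.zero_im, mul_zero, zero_mul, sub_zero, add_zero, mul_one, zero_add, sub_self]
      at hre him
    constructor
    · have := (mul_eq_zero.mp hre).resolve_right ht
      exact_mod_cast this
    · have := (mul_eq_zero.mp him).resolve_right Real.pi_ne_zero
      exact_mod_cast this
  obtain ⟨h1, h3⟩ := Pool.Agent.H297R2.baker_inhom ω halg hω a ha ![c, -Complex.I * b] (by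
      intro i
      fin_cases i
      · exact hc
      · exact algI.neg.mul hb) (by
      rw [Fin.sum_univ_two]
      simp only [ω, Matrix.cons_val_zero, Matrix.cons_val_one]
      have : Complex.I * Complex.I = -1 := Complex.I_mul_I
      linear_combination h - (b * Real.pi : ℂ) * this)
  have h4 := h3 0
  have h5 := h3 1
  simp only [Matrix.cons_val_zero, Matrix.cons_val_one] at h4 h5
  refine ⟨h1, ?_, h4⟩
  have := mul_eq_zero.mp h5
  exact this.resolve_left (neg_ne_zero.mpr Complex.I_ne_zero)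

theorem pi_mem : (Real.pi : ℂ) ∈ LB := by
  have h1 : (Real.pi : ℂ) * Complex.I ∈ LB := LB_log (by
    rw [Complex.exp_pi_mul_I]; exact isAlgebraic_one.neg)
  have h2 := LB_mul algI.neg h1
  have h3 : -Complex.I * ((Real.pi : ℂ) * Complex.I) = Real.pi := by
    have : Complex.I * Complex.I = -1 := Complex.I_mul_I
    linear_combination (-(Real.pi : ℂ)) * this
  rwa [h3] at h2

theorem LB_Lt {z : ℂ} (h : z ∈ LB) : z ∈ Lt := by
  have : LB ≤ Lt := Submodule.span_mono (Set.subset_union_right)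
  exact this h

theorem real_mem {t : ℝ} (h : IsAlgebraic ℚ (Real.exp t)) : (t : ℂ) ∈ LB :=
  LB_log (by rw [← Complex.ofReal_exp]; exact toC h)

theorem LB_real_alg {t : ℝ} (h : (t : ℂ) ∈ LB) (ha : IsAlgebraic ℚ t) : t = 0 := by
  have := LB_alg h (toC ha)
  exact_mod_cast this

/-- two-by-three form of the strong six exponentials theorem -/
theorem six' (x0 x1 y0 y1 y2 : ℂ)
    (hx : ∀ a b : ℂ, IsAlgebraic ℚ a → IsAlgebraic ℚ b → a * x0 + b * x1 = 0 → a = 0 ∧ b = 0)
    (hy : ∀ a b c : ℂ, IsAlgebraic ℚ a → IsAlgebraic ℚ b → IsAlgebraic ℚ c →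
      a * y0 + b * y1 + c * y2 = 0 → a = 0 ∧ b = 0 ∧ c = 0)
    (h00 : x0 * y0 ∈ Lt) (h01 : x0 * y1 ∈ Lt) (h02 : x0 * y2 ∈ Lt)
    (h10 : x1 * y0 ∈ Lt) (h11 : x1 * y1 ∈ Lt) (h12 : x1 * y2 ∈ Lt) : False := by
  refine strong_six ![x0, x1] ![y0, y1, y2] ?_ ?_ ?_
  · intro a b ha hb hab
    exact hx a b ha hb (by simpa using hab)
  · intro c hc hsum
    rw [Fin.sum_univ_three] at hsum
    obtain ⟨h1, h2, h3⟩ := hy (c 0) (c 1) (c 2) (hc 0) (hc 1) (hc 2) (by simpa using hsum)
    intro j
    fin_cases j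
    · exact h1
    · exact h2
    · exact h3
  · intro i j
    fin_cases i <;> fin_cases j <;> simpa

end Pool.Agent.H301R2.Nine
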