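import Pool.Agent.H301R2.SSE.Nine2

set_option autoImplicit false

namespace Pool.Agent.H301R2.Nine

open Pool.Agent.H301R2.SSE Real

theorem lin_e {a b : ℂ} (ha : IsAlgebraic ℚ a) (hb : IsAlgebraic ℚ b)
    (h : a * 1 + b * ((Real.exp 1 : ℝ) : ℂ) = 0) : a = 0 ∧ b = 0 :=
  lin_of_tr trC_e ha hb (by rw [mul_one] at h; exact h)

theorem lin_pi {a b : ℂ} (ha : IsAlgebraic ℚ a) (hb : IsAlgebraic ℚ b)
    (h : a * 1 + b * (π : ℂ) = 0) : a = 0 ∧ b = 0 :=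
  lin_of_tr trC_pi ha hb (by rw [mul_one] at h; exact h)

/-- `L` lies in the space of linear forms, and so do `πL`, `π²`: impossible -/
theorem bf (hG : Good) (h1 : (π : ℂ) * (L : ℂ) ∈ Lt) (h2 : (π : ℂ) * (π : ℂ) ∈ Lt) : False := by
  obtain ⟨hL, hli⟩ := hG
  have hpi : (π : ℂ) ∈ Lt := LB_Lt pi_mem
  refine six' 1 π 1 π L (fun a b ha hb h => lin_pi ha hb h) (fun a b c ha hb hc h =>
    hli a b c ha hb hc (by rw [mul_one] at h; exact h)) ?_ ?_ ?_ ?_ ?_ ?_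
  · rw [mul_one]; exact Lt_one
  · rwa [one_mul]
  · rwa [one_mul]
  · rwa [mul_one]
  · exact h2
  · exact h1

theorem mB (h : IsAlgebraic ℚ (Real.exp (π * L))) : (π : ℂ) * (L : ℂ) ∈ LB := by
  have := real_mem h
  push_cast at this
  exact this

theorem mF (h : IsAlgebraic ℚ (Real.exp (π * π))) : (π : ℂ) * (π : ℂ) ∈ LB := by
  have := real_mem h
  push_cast at this
  exact this

theorem mD (h : IsAlgebraic ℚ (Real.exp (Real.exp 1 * L))) :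
    ((Real.exp 1 : ℝ) : ℂ) * (L : ℂ) ∈ LB := by
  have := real_mem h
  rwa [Complex.ofReal_mul] at this

theorem eLpos : Real.exp 1 * L ≠ 0 := mul_ne_zero (Real.exp_ne_zero 1) L_pos.ne'

theorem piLpos : π * L ≠ 0 := mul_ne_zero Real.pi_ne_zero L_pos.ne'

/-- the shape of the relations with `r = π e` algebraic -/
theorem a3 (h : IsAlgebraic ℚ (π * Real.exp 1)) {y0 y1 y2 : ℂ}
    (hy : ∀ a b c : ℂ, IsAlgebraic ℚ a → IsAlgebraic ℚ b → IsAlgebraic ℚ c →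
      a * y0 + b * y1 + c * y2 = 0 → a = 0 ∧ b = 0 ∧ c = 0)
    (h0 : y0 ∈ Lt) (h1 : y1 ∈ Lt) (h2 : y2 ∈ Lt) (h0' : ((Real.exp 1 : ℝ) : ℂ) * y0 ∈ Lt)
    (h1' : ((Real.exp 1 : ℝ) : ℂ) * y1 ∈ Lt) (h2' : ((Real.exp 1 : ℝ) : ℂ) * y2 ∈ Lt) : False :=
  six' 1 ((Real.exp 1 : ℝ) : ℂ) y0 y1 y2 (fun _ _ ha hb h => lin_e ha hb h) hy
    (by rwa [one_mul]) (by rwa [one_mul]) (by rwa [one_mul]) h0' h1' h2'

theorem epi (h : IsAlgebraic ℚ (π * Real.exp 1)) : ((Real.exp 1 : ℝ) : ℂ) * (π : ℂ) ∈ Lt := by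
  have h1 := Lt_alg (toC h)
  have h2 : ((π * Real.exp 1 : ℝ) : ℂ) = ((Real.exp 1 : ℝ) : ℂ) * (π : ℂ) := by
    rw [Complex.ofReal_mul, mul_comm]
  rwa [h2] at h1

/-- `e · πL = rL` -/
theorem epiL (h : IsAlgebraic ℚ (π * Real.exp 1)) :
    ((Real.exp 1 : ℝ) : ℂ) * ((π : ℂ) * (L : ℂ)) ∈ Lt := by
  have h1 := Lt_mul (toC h) (good_A3 h).1
  have h2 : ((π * Real.exp 1 : ℝ) : ℂ) * (L : ℂ) = ((Real.exp 1 : ℝ) : ℂ) * ((π : ℂ) * (L : ℂ)) := by
    rw [Complex.ofReal_mul]; ring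
  rwa [h2] at h1

/-- `e · π² = rπ` -/
theorem epipi (h : IsAlgebraic ℚ (π * Real.exp 1)) :
    ((Real.exp 1 : ℝ) : ℂ) * ((π : ℂ) * (π : ℂ)) ∈ Lt := by
  have h1 := Lt_mul (toC h) (LB_Lt pi_mem)
  have h2 : ((π * Real.exp 1 : ℝ) : ℂ) * (π : ℂ) = ((Real.exp 1 : ℝ) : ℂ) * ((π : ℂ) * (π : ℂ)) := by
    rw [Complex.ofReal_mul]; ring
  rwa [h2] at h1

/-- `L = t - 1` with `t` a logarithm: the coefficient of `L` in a relation modulo logarithms
vanishes -/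
theorem a3_coeff (h : IsAlgebraic ℚ (π * Real.exp 1)) {b z : ℂ} (hb : IsAlgebraic ℚ b)
    (hz : z ∈ LB) (hrel : b * (L : ℂ) + z = 0) : b = 0 := by
  have h2 : ((L + 1 : ℝ) : ℂ) ∈ LB := real_mem (by rw [Real.exp_add, exp_L]; exact h)
  have h3 : b ∈ LB := by
    have h4 := Submodule.add_mem _ (LB_mul hb h2) hz
    have h5 : b * ((L + 1 : ℝ) : ℂ) + z = b := by
      push_cast
      linear_combination hrel
    rwa [h5] at h4
  exact LB_alg h3 hb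

theorem t245 (h : IsAlgebraic ℚ (π * Real.exp 1)) (hB : IsAlgebraic ℚ (Real.exp (π * L)))
    (hC : IsAlgebraic ℚ (Real.exp (Real.exp 1))) : False := by
  refine a3 h (y0 := 1) (y1 := π) (y2 := (π : ℂ) * (L : ℂ)) ?_ Lt_one (LB_Lt pi_mem)
    (LB_Lt (mB hB)) ?_ (epi h) (epiL h)
  · intro a b c ha hb hc habc
    exact pi_log piLpos hB ha hb hc (by push_cast; linear_combination habc)
  · rw [mul_one]; exact LB_Lt (real_mem hC)

theorem t258 (h : IsAlgebraic ℚ (π * Real.exp 1)) (hC : IsAlgebraic ℚ (Real.exp (Real.exp 1)))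
    (hF : IsAlgebraic ℚ (Real.exp (π * π))) : False := by
  refine a3 h (y0 := 1) (y1 := π) (y2 := (π : ℂ) * (π : ℂ)) ?_ Lt_one (LB_Lt pi_mem)
    (LB_Lt (mF hF)) ?_ (epi h) (epipi h)
  · intro a b c ha hb hc habc
    exact pi_log (mul_ne_zero Real.pi_ne_zero Real.pi_ne_zero) hF ha hb hc
      (by push_cast; linear_combination habc)
  · rw [mul_one]; exact LB_Lt (real_mem hC)

theorem t256 (h : IsAlgebraic ℚ (π * Real.exp 1)) (hC : IsAlgebraic ℚ (Real.exp (Real.exp 1)))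
    (hD : IsAlgebraic ℚ (Real.exp (Real.exp 1 * L))) : False := by
  refine a3 h (y0 := 1) (y1 := π) (y2 := (L : ℂ)) ?_ Lt_one (LB_Lt pi_mem)
    (good_A3 h).1 ?_ (epi h) (LB_Lt (mD hD))
  · intro a b c ha hb hc habc
    exact (good_A3 h).2 a b c ha hb hc (by linear_combination habc)
  · rw [mul_one]; exact LB_Lt (real_mem hC)

theorem t246 (h : IsAlgebraic ℚ (π * Real.exp 1)) (hB : IsAlgebraic ℚ (Real.exp (π * L)))
    (hD : IsAlgebraic ℚ (Real.exp (Real.exp 1 * L))) : False := by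
  refine a3 h (y0 := π) (y1 := (L : ℂ)) (y2 := (π : ℂ) * (L : ℂ)) ?_ (LB_Lt pi_mem)
    (good_A3 h).1 (LB_Lt (mB hB)) (epi h) (LB_Lt (mD hD)) (epiL h)
  intro a b c ha hb hc habc
  have hb0 : b = 0 := a3_coeff h hb (z := a * π + c * ((π : ℂ) * (L : ℂ)))
    (Submodule.add_mem _ (LB_mul ha pi_mem) (LB_mul hc (mB hB))) (by linear_combination habc)
  subst hb0
  obtain ⟨-, h1, h2⟩ := pi_log piLpos hB isAlgebraic_zero ha hc
    (by push_cast; linear_combination habc)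
  exact ⟨h1, rfl, h2⟩

theorem t268 (h : IsAlgebraic ℚ (π * Real.exp 1)) (hD : IsAlgebraic ℚ (Real.exp (Real.exp 1 * L)))
    (hF : IsAlgebraic ℚ (Real.exp (π * π))) : False := by
  refine a3 h (y0 := π) (y1 := (L : ℂ)) (y2 := (π : ℂ) * (π : ℂ)) ?_ (LB_Lt pi_mem)
    (good_A3 h).1 (LB_Lt (mF hF)) (epi h) (LB_Lt (mD hD)) (epipi h)
  intro a b c ha hb hc habc
  have hb0 : b = 0 := a3_coeff h hb (z := a * π + c * ((π : ℂ) * (π : ℂ)))
    (Submodule.add_mem _ (LB_mul ha pi_mem) (LB_mul hc (mF hF))) (by linear_combination habc)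
  subst hb0
  obtain ⟨-, h1, h2⟩ := pi_log (mul_ne_zero Real.pi_ne_zero Real.pi_ne_zero) hF isAlgebraic_zero
    ha hc (by push_cast; linear_combination habc)
  exact ⟨h1, rfl, h2⟩

theorem t248 (h : IsAlgebraic ℚ (π * Real.exp 1)) (hB : IsAlgebraic ℚ (Real.exp (π * L)))
    (hF : IsAlgebraic ℚ (Real.exp (π * π))) : False := by
  refine a3 h (y0 := π) (y1 := (π : ℂ) * (L : ℂ)) (y2 := (π : ℂ) * (π : ℂ)) ?_ (LB_Lt pi_mem)
    (LB_Lt (mB hB)) (LB_Lt (mF hF)) (epi h) (epiL h) (epipi h)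
  intro a b c ha hb hc habc
  have hp : (π : ℂ) ≠ 0 := by exact_mod_cast Real.pi_ne_zero
  obtain ⟨h1, h2, h3⟩ := (good_A3 h).2 a c b ha hc hb (by
    apply mul_left_cancel₀ hp
    linear_combination habc)
  exact ⟨h1, h3, h2⟩

theorem t348 (h : IsAlgebraic ℚ (π / Real.exp 1)) (hB : IsAlgebraic ℚ (Real.exp (π * L)))
    (hF : IsAlgebraic ℚ (Real.exp (π * π))) : False :=
  bf (good_A4 h) (LB_Lt (mB hB)) (LB_Lt (mF hF))

theorem t368 (h : IsAlgebraic ℚ (π / Real.exp 1)) (hD : IsAlgebraic ℚ (Real.exp (Real.exp 1 * L)))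
    (hF : IsAlgebraic ℚ (Real.exp (π * π))) : False := by
  refine bf (good_A4 h) (LB_Lt ?_) (LB_Lt (mF hF))
  have h1 := LB_mul (toC h) (mD hD)
  have h2 : ((π / Real.exp 1 : ℝ) : ℂ) * (((Real.exp 1 : ℝ) : ℂ) * (L : ℂ)) = π * L := by
    rw [← mul_assoc, ← Complex.ofReal_mul, div_mul_cancel₀ _ (Real.exp_ne_zero 1)]
  rwa [h2] at h1

theorem t478 (hB : IsAlgebraic ℚ (Real.exp (π * L))) (hE : IsAlgebraic ℚ (Real.exp (√2 * L)))
    (hF : IsAlgebraic ℚ (Real.exp (π * π))) : False :=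
  bf (good_E hE) (LB_Lt (mB hB)) (LB_Lt (mF hF))

theorem q0678 (h : IsAlgebraic ℚ (π + Real.exp 1)) (hD : IsAlgebraic ℚ (Real.exp (Real.exp 1 * L)))
    (hE : IsAlgebraic ℚ (Real.exp (√2 * L))) (hF : IsAlgebraic ℚ (Real.exp (π * π))) : False := by
  refine bf (good_E hE) ?_ (LB_Lt (mF hF))
  have h1 := Submodule.sub_mem _ (Lt_mul (toC h) (good_E hE).1) (LB_Lt (mD hD))
  have h2 : ((π + Real.exp 1 : ℝ) : ℂ) * (L : ℂ) - ((Real.exp 1 : ℝ) : ℂ) * (L : ℂ) = π * L := by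
    rw [Complex.ofReal_add]; ring
  rwa [h2] at h1

theorem q1678 (h : IsAlgebraic ℚ (π - Real.exp 1)) (hD : IsAlgebraic ℚ (Real.exp (Real.exp 1 * L)))
    (hE : IsAlgebraic ℚ (Real.exp (√2 * L))) (hF : IsAlgebraic ℚ (Real.exp (π * π))) : False := by
  refine bf (good_E hE) ?_ (LB_Lt (mF hF))
  have h1 := Submodule.add_mem _ (Lt_mul (toC h) (good_E hE).1) (LB_Lt (mD hD))
  have h2 : ((π - Real.exp 1 : ℝ) : ℂ) * (L : ℂ) + ((Real.exp 1 : ℝ) : ℂ) * (L : ℂ) = π * L := by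
    rw [Complex.ofReal_sub]; ring
  rwa [h2] at h1

theorem q0468 (h : IsAlgebraic ℚ (π + Real.exp 1)) (hB : IsAlgebraic ℚ (Real.exp (π * L)))
    (hD : IsAlgebraic ℚ (Real.exp (Real.exp 1 * L)))
    (hF : IsAlgebraic ℚ (Real.exp (π * π))) : False := by
  refine bf (good_s (s := π + Real.exp 1) ?_ h ?_) (LB_Lt (mB hB)) (LB_Lt (mF hF))
  · have := Real.exp_pos 1
    have := Real.pi_pos
    positivity
  · rw [add_mul, Real.exp_add]
    exact hB.mul hD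

theorem q1468 (h : IsAlgebraic ℚ (π - Real.exp 1)) (hB : IsAlgebraic ℚ (Real.exp (π * L)))
    (hD : IsAlgebraic ℚ (Real.exp (Real.exp 1 * L)))
    (hF : IsAlgebraic ℚ (Real.exp (π * π))) : False := by
  refine bf (good_s (s := π - Real.exp 1) ?_ h ?_) (LB_Lt (mB hB)) (LB_Lt (mF hF))
  · have := e_lt_pi
    linarith
  · rw [sub_mul, Real.exp_sub, div_eq_mul_inv]
    exact hB.mul hD.inv

theorem q4567 (hB : IsAlgebraic ℚ (Real.exp (π * L))) (hC : IsAlgebraic ℚ (Real.exp (Real.exp 1)))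
    (hD : IsAlgebraic ℚ (Real.exp (Real.exp 1 * L)))
    (hE : IsAlgebraic ℚ (Real.exp (√2 * L))) : False := by
  refine six' 1 L 1 π ((Real.exp 1 : ℝ) : ℂ) ?_ ?_ ?_ ?_ ?_ ?_ ?_ ?_
  · intro a b ha hb hab
    obtain ⟨h1, -, h2⟩ := (good_E hE).2 a 0 b ha isAlgebraic_zero hb (by linear_combination hab)
    exact ⟨h1, h2⟩
  · intro a b c ha hb hc habc
    exact pi_log (Real.exp_ne_zero 1) hC ha hb hc (by linear_combination habc)
  · rw [mul_one]; exact Lt_one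
  · rw [one_mul]; exact LB_Lt pi_mem
  · rw [one_mul]; exact LB_Lt (real_mem hC)
  · rw [mul_one]; exact (good_E hE).1
  · rw [mul_comm]; exact LB_Lt (mB hB)
  · rw [mul_comm]; exact LB_Lt (mD hD)

end Pool.Agent.H301R2.Nine
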