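import Pool.Agent.H301R2.ZG.Grp
import Pool.Agent.H301R2.SSE.Lin
import Pool.Agent.H335R2.Obs.Main

set_option autoImplicit false

namespace Pool.Agent.H301R2.SSE

open Module Finset Pool.Agent.H301R2.ZG

theorem zeg : Pool.Agent.H335R2.Obs.ZEG := by
  intro σ _ _ add l W Γ₁ T F L hL hΓ hF0 hF hvan
  obtain ⟨P, h1, h2, _, _, _, h3⟩ := zero_estimate_grp add W Γ₁ T F L hL hΓ hF0 hF hvan
  exact ⟨P, h1, h2, h3⟩

/-- logarithms of algebraic numbers form a `ℚ`-vector space -/
def Lg : Submodule ℚ ℂ where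
  carrier := {z | IsAlgebraic ℚ (Complex.exp z)}
  zero_mem' := by
    change IsAlgebraic ℚ (Complex.exp 0)
    rw [Complex.exp_zero]; exact isAlgebraic_one
  add_mem' := by
    intro a b ha hb
    change IsAlgebraic ℚ (Complex.exp (a + b))
    rw [Complex.exp_add]
    exact IsAlgebraic.mul ha hb
  smul_mem' := by
    intro c z hz
    change IsAlgebraic ℚ (Complex.exp (c • z))
    have hz' : IsAlgebraic ℚ (Complex.exp z) := hz
    have h1 : Complex.exp (c • z) ^ c.den = Complex.exp z ^ c.num := by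
      rw [← Complex.exp_nat_mul, ← Complex.exp_int_mul]
      congr 1
      rw [Rat.smul_def, ← mul_assoc]
      congr 1
      have := Rat.mul_den_eq_num c
      have h2 : ((c * c.den : ℚ) : ℂ) = ((c.num : ℚ) : ℂ) := by rw [this]
      push_cast at h2
      rw [mul_comm]; exact h2
    have h2 : IsAlgebraic ℚ (Complex.exp z ^ c.num) := by
      rcases Int.eq_nat_or_neg c.num with ⟨n, h | h⟩
      · rw [h, zpow_natCast]; exact hz'.pow n
      · rw [h, zpow_neg, zpow_natCast]; exact (hz'.pow n).inv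
    rw [← h1] at h2
    exact h2.of_pow c.den_pos

theorem mem_Lg {z : ℂ} : z ∈ Lg ↔ IsAlgebraic ℚ (Complex.exp z) := Iff.rfl

variable (K : IntermediateField ℚ ℂ) [FiniteDimensional ℚ K]

/-- the degree -/
noncomputable def dg : ℕ := finrank ℚ K

instance : NeZero (dg K) := ⟨(Module.finrank_pos (R := ℚ) (M := K)).ne'⟩

/-- a basis of `K` over `ℚ` -/
noncomputable def bs : Basis (Fin (dg K)) ℚ K := Module.finBasis ℚ K

/-- the basis elements as complex numbers -/
noncomputable def om (h : Fin (dg K)) : ℂ := ((bs K h : K) : ℂ)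

theorem om_alg (h : Fin (dg K)) : IsAlgebraic ℚ (om K h) := by
  have h1 : IsAlgebraic ℚ (bs K h) := Algebra.IsAlgebraic.isAlgebraic _
  exact h1.algebraMap (A := ℂ)

theorem om_ne (h : Fin (dg K)) : om K h ≠ 0 := by
  unfold om
  have := (bs K).ne_zero h
  simpa using this

/-- structure constants -/
noncomputable def cc (a : K) (h h' : Fin (dg K)) : ℚ := (bs K).repr (a * bs K h) h'

theorem mul_om (a : K) (h : Fin (dg K)) : (a : ℂ) * om K h = ∑ h', (cc K a h h' : ℂ) * om K h' := by
  have h1 := (bs K).sum_repr (a * bs K h)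
  have h2 := congrArg (fun z : K => (z : ℂ)) h1
  simp only [IntermediateField.coe_sum, MulMemClass.coe_mul] at h2
  unfold om
  rw [← h2]
  apply Finset.sum_congr rfl
  intro h' _
  unfold cc
  rw [Algebra.smul_def]
  rfl

theorem span_K {z : ℂ} (hz : z ∈ Submodule.span K {z : ℂ | IsAlgebraic ℚ (Complex.exp z)}) :
    ∃ u : Fin (dg K) → ℂ, (∀ h, u h ∈ Lg) ∧ z = ∑ h, om K h * u h := by
  classical
  have key : ∀ (a : K) (u : Fin (dg K) → ℂ), (a : ℂ) * ∑ h, om K h * u h =
      ∑ h', om K h' * ∑ h, (cc K a h h' : ℂ) * u h := by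
    intro a u
    rw [Finset.mul_sum]
    have h1 : ∀ h, (a : ℂ) * (om K h * u h) = ∑ h', (cc K a h h' : ℂ) * om K h' * u h := by
      intro h
      rw [← mul_assoc, mul_om, Finset.sum_mul]
    simp only [h1, Finset.mul_sum]
    rw [Finset.sum_comm]
    apply Finset.sum_congr rfl; intro h' _
    apply Finset.sum_congr rfl; intro h _
    ring
  refine Submodule.span_induction (p := fun z _ => ∃ u : Fin (dg K) → ℂ, (∀ h, u h ∈ Lg) ∧
    z = ∑ h, om K h * u h) ?_ ?_ ?_ ?_ hz
  · intro z hz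
    -- 1 = sum q_h om_h
    refine ⟨fun h => ((bs K).repr 1 h) • z, fun h => Lg.smul_mem _ hz, ?_⟩
    have h1 := (bs K).sum_repr 1
    have h2 := congrArg (fun z : K => (z : ℂ)) h1
    simp only [IntermediateField.coe_sum, OneMemClass.coe_one] at h2
    have h3 : ∑ h, om K h * ((bs K).repr 1 h • z) = (∑ h, (((bs K).repr 1 h • bs K h : K) : ℂ)) * z := by
      rw [Finset.sum_mul]
      apply Finset.sum_congr rfl
      intro h _
      rw [Algebra.smul_def, Algebra.smul_def]
      unfold om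
      simp only [MulMemClass.coe_mul]
      have : ((algebraMap ℚ K ((bs K).repr 1 h) : K) : ℂ) = algebraMap ℚ ℂ ((bs K).repr 1 h) := rfl
      rw [this]
      ring
    rw [h3, h2, one_mul]
  · exact ⟨0, fun h => Lg.zero_mem, by simp⟩
  · rintro z z' _ _ ⟨u, hu, rfl⟩ ⟨u', hu', rfl⟩
    refine ⟨u + u', fun h => Lg.add_mem (hu h) (hu' h), ?_⟩
    rw [← Finset.sum_add_distrib]
    apply Finset.sum_congr rfl
    intro h _
    simp only [Pi.add_apply]
    ring
  · rintro a z _ ⟨u, hu, rfl⟩
    refine ⟨fun h' => ∑ h, (cc K a h h' : ℂ) * u h, fun h' => ?_, ?_⟩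
    · apply Submodule.sum_mem
      intro h _
      have := Lg.smul_mem (cc K a h h') (hu h)
      rwa [Rat.smul_def] at this
    · rw [← key a u]
      rfl

end Pool.Agent.H301R2.SSE
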