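import Pool.Agent.H301R2.SSE.Main

set_option autoImplicit false

namespace Pool.Agent.H301R2.SSE

open Module Finset Pool.Agent.H301R2.ZG

section pts

variable {D : ℕ}

/-- first component of a point index -/
def g1 (p : Fin (3 * D)) : Fin 3 := (finProdFinEquiv.symm p).1
/-- second component of a point index -/
def g2 (p : Fin (3 * D)) : Fin D := (finProdFinEquiv.symm p).2
/-- point index of a pair -/
def pt3 (j : Fin 3) (g : Fin D) : Fin (3 * D) := finProdFinEquiv (j, g)

@[simp] theorem g1_pt (j : Fin 3) (g : Fin D) : g1 (pt3 j g) = j := by simp [g1, pt3]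
@[simp] theorem g2_pt (j : Fin 3) (g : Fin D) : g2 (pt3 j g) = g := by simp [g2, pt3]
theorem pt3_g (p : Fin (3 * D)) : pt3 (g1 p) (g2 p) = p := finProdFinEquiv.apply_symm_apply p

theorem sum_pt {M : Type*} [AddCommMonoid M] (f : Fin (3 * D) → M) :
    ∑ q, f q = ∑ j, ∑ g, f (pt3 j g) := by
  rw [← Fintype.sum_prod_type' (f := fun j g => f (pt3 j g))]
  exact (Equiv.sum_comp finProdFinEquiv f).symm

end pts

/-- two vectors of `ℂ²` orthogonal to a common nonzero vector are proportional -/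
theorem prop2 {α0 α1 a b c d : ℂ} (h : ¬ (α0 = 0 ∧ α1 = 0)) (h1 : α0 * a + α1 * b = 0)
    (h2 : α0 * c + α1 * d = 0) : b * c - a * d = 0 := by
  by_cases h0 : α0 = 0
  · have h3 : α1 ≠ 0 := fun h' => h ⟨h0, h'⟩
    rw [h0, zero_mul, zero_add] at h1 h2
    have hb : b = 0 := (mul_eq_zero.mp h1).resolve_left h3
    have hd : d = 0 := (mul_eq_zero.mp h2).resolve_left h3
    rw [hb, hd]; ring
  · have : α0 * (b * c - a * d) = 0 := by linear_combination b * h2 - d * h1
    exact (mul_eq_zero.mp this).resolve_left h0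

section main

variable (K : IntermediateField ℚ ℂ) [FiniteDimensional ℚ K]

/-- rational combination of the basis -/
noncomputable def tau (t : Fin (dg K) → ℚ) : K := ∑ h, t h • bs K h

theorem tau_coe (t : Fin (dg K) → ℚ) : ((tau K t : K) : ℂ) = ∑ h, (t h : ℂ) * om K h := by
  unfold tau
  simp only [IntermediateField.coe_sum]
  apply Finset.sum_congr rfl
  intro h _
  rw [Algebra.smul_def]
  rfl

theorem tau_eq_zero {t : Fin (dg K) → ℚ} (h : tau K t = 0) : t = 0 := by
  have := Fintype.linearIndependent_iff.mp (bs K).linearIndependent t h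
  funext j; exact this j

variable (x : Fin 2 → ℂ) (y : Fin 3 → ℂ) (β : Fin 2 → Fin 3 → ℂ)
  (u : Fin 2 → Fin 3 → Fin (dg K) → ℂ)

/-- logarithms at the points -/
noncomputable def um (i : Fin 2) (h : Fin (dg K)) (p : Fin (3 * dg K)) : ℂ :=
  ∑ h0, (cc K (bs K (g2 p)) h0 h : ℂ) * u i (g1 p) h0

/-- algebraic parts at the points -/
noncomputable def av (i : Fin 2) (p : Fin (3 * dg K)) : ℂ := om K (g2 p) * β i (g1 p)

/-- the points -/
noncomputable def yv (p : Fin (3 * dg K)) : ℂ := om K (g2 p) * y (g1 p)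

theorem factA (hxy : ∀ i j, x i * y j = β i j + ∑ h, om K h * u i j h) (i : Fin 2)
    (p : Fin (3 * dg K)) :
    x i * yv K y p = av K β i p + ∑ h, om K h * um K u i h p := by
  unfold yv av um
  have h1 : x i * (om K (g2 p) * y (g1 p)) = om K (g2 p) * (x i * y (g1 p)) := by ring
  rw [h1, hxy, mul_add, Finset.mul_sum]
  congr 1
  have h2 : ∀ h0, om K (g2 p) * (om K h0 * u i (g1 p) h0) =
      ∑ h, (cc K (bs K (g2 p)) h0 h : ℂ) * om K h * u i (g1 p) h0 := by
    intro h0
    have := mul_om K (bs K (g2 p)) h0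
    rw [← mul_assoc, ← Finset.sum_mul, ← this]
    rfl
  simp only [h2, Finset.mul_sum]
  rw [Finset.sum_comm]
  apply Finset.sum_congr rfl; intro h _
  apply Finset.sum_congr rfl; intro h0 _
  ring

theorem um_mem (hu : ∀ i j h, u i j h ∈ Lg) (i : Fin 2) (h : Fin (dg K)) (p : Fin (3 * dg K)) :
    um K u i h p ∈ Lg := by
  unfold um
  apply Submodule.sum_mem
  intro h0 _
  have := Lg.smul_mem (cc K (bs K (g2 p)) h0 h) (hu i (g1 p) h0)
  rwa [Rat.smul_def] at this

theorem yv_zero (hy : ∀ c : Fin 3 → K, ∑ j, (c j : ℂ) * y j = 0 → ∀ j, c j = 0)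
    (s : Fin (3 * dg K) → ℤ) (h : ∑ p, yv K y p * (s p : ℂ) = 0) : s = 0 := by
  rw [sum_pt] at h
  have h1 : ∀ j, ∑ g, yv K y (pt3 j g) * (s (pt3 j g) : ℂ) =
      ((tau K (fun g => (s (pt3 j g) : ℚ)) : K) : ℂ) * y j := by
    intro j
    rw [tau_coe, Finset.sum_mul]
    apply Finset.sum_congr rfl
    intro g _
    unfold yv
    rw [g1_pt, g2_pt]
    push_cast
    ring
  simp only [h1] at h
  have h2 := hy _ h
  funext p
  have h3 := congrFun (tau_eq_zero K (h2 (g1 p))) (g2 p)
  simp only [Pi.zero_apply, pt3_g] at h3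
  exact_mod_cast h3

end main

end Pool.Agent.H301R2.SSE
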